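import Mathlib

set_option autoImplicit false

/-!
MP_257582_lc. The signed number of the graphs with small components: arithmetic.
-/

namespace Pool.Agent.W5h81.Tp

open Finset

/-- `e p r` is the sum of `(-1) ^ (number of edges)` over the graphs on `r` labelled vertices all
components of which have less than `p` vertices (see `Count`) -/
def e (p : ℕ) : ℕ → ℤ
  | 0 => 1
  | (r + 1) => ∑ j : Fin (r + 1), if (j : ℕ) + 1 < p then
      (-1) ^ (j : ℕ) * (r.descFactorial j : ℤ) * e p (r - j) else 0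
  termination_by r => r
  decreasing_by omega

theorem e_zero (p : ℕ) : e p 0 = 1 := by
  rw [e]

theorem e_succ (p r : ℕ) : e p (r + 1) = ∑ j ∈ range (r + 1), if j + 1 < p then
      (-1) ^ j * (r.descFactorial j : ℤ) * e p (r - j) else 0 := by
  rw [e, Finset.sum_range]

/-- partial sums -/
def T (p q r : ℕ) : ℤ := ∑ j ∈ range q, (-1) ^ j * (r.descFactorial j : ℤ) * e p (r - j)

theorem T_trunc (p q r : ℕ) : T p q r = ∑ j ∈ range (r + 1), if j < q then
      (-1) ^ j * (r.descFactorial j : ℤ) * e p (r - j) else 0 := by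
  rw [T, ← Finset.sum_filter]
  refine (Finset.sum_subset ?_ ?_).symm
  · intro j hj
    rw [Finset.mem_filter] at hj
    exact Finset.mem_range.2 hj.2
  · intro j hj hj'
    rw [Finset.mem_filter, Finset.mem_range] at hj'
    rw [Finset.mem_range] at hj
    have h1 : r < j := by
      by_contra hcon
      exact hj' ⟨by omega, hj⟩
    rw [Nat.descFactorial_eq_zero_iff_lt.2 h1]
    simp

theorem e_succ_T (p r : ℕ) : e p (r + 1) = T p (p - 1) r := by
  rw [e_succ, T_trunc]
  refine Finset.sum_congr rfl fun j _ => ?_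
  congr 1
  exact propext (by omega)

theorem T_succ (p q r : ℕ) : T p (q + 1) (r + 1) = e p (r + 1) - (r + 1 : ℕ) * T p q r := by
  rw [T, Finset.sum_range_succ', T, Finset.mul_sum]
  simp only [pow_zero, Nat.descFactorial_zero, Nat.cast_one, mul_one, one_mul, Nat.sub_zero]
  rw [add_comm, sub_eq_add_neg, ← Finset.sum_neg_distrib]
  congr 1
  refine Finset.sum_congr rfl fun j _ => ?_
  rw [Nat.succ_descFactorial_succ, Nat.add_sub_add_right]
  push_cast
  ring

/-- the signed number of the bad configurations -/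
theorem T_eq (p r : ℕ) (hp : 1 ≤ p) (hr : 1 ≤ r) : T p p r = (1 - (r : ℤ)) * e p r := by
  obtain ⟨r, rfl⟩ : ∃ s, r = s + 1 := ⟨r - 1, by omega⟩
  obtain ⟨q, rfl⟩ : ∃ q, p = q + 1 := ⟨p - 1, by omega⟩
  rw [T_succ, e_succ_T (q + 1) r, Nat.add_sub_cancel]
  push_cast
  ring

theorem e_rec (p r : ℕ) (hp : 3 ≤ p) (ho : Odd p) (hr : 1 ≤ r) :
    e p (r + 1) = (1 - (r : ℤ)) * e p r - (r.descFactorial (p - 1) : ℤ) * e p (r - (p - 1)) := by
  rw [e_succ_T, ← T_eq p r (by omega) hr]
  have h1 : T p p r = T p (p - 1 + 1) r := by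
    rw [Nat.sub_add_cancel (by omega)]
  have h2 : Even (p - 1) := Nat.Odd.sub_odd ho odd_one
  rw [h1, T, T, Finset.sum_range_succ, h2.neg_one_pow]
  ring

theorem e_one (p : ℕ) (hp : 3 ≤ p) : e p 1 = 1 := by
  rw [e_succ]
  simp only [zero_add, Finset.range_one, Finset.sum_singleton]
  rw [if_pos (by omega)]
  simp [e_zero]

theorem desc_dvd (r j a : ℕ) (h1 : a ≤ r) (h2 : r < a + j) : a ∣ r.descFactorial j := by
  induction j with
  | zero => omega
  | succ j ih =>
    rw [Nat.descFactorial_succ]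
    by_cases h : r < a + j
    · exact Dvd.dvd.mul_left (ih h) _
    · have h3 : r - j = a := by omega
      rw [h3]
      exact Dvd.intro _ rfl

theorem desc_cast (p : ℕ) (q j : ℕ) (hj : j ≤ p - 1) :
    (((p * q + (p - 1)).descFactorial j : ℕ) : ZMod p) = ((p - 1).descFactorial j : ℕ) := by
  induction j with
  | zero => simp
  | succ j ih =>
    rw [Nat.descFactorial_succ, Nat.descFactorial_succ, Nat.cast_mul, Nat.cast_mul, ih (by omega)]
    congr 1
    have h : p * q + (p - 1) - j = p * q + (p - 1 - j) := by omega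
    rw [h]
    push_cast
    simp

/-- the values modulo `p` -/
theorem e_mod (p : ℕ) (hp : p.Prime) (hp3 : 3 ≤ p) (q : ℕ) :
    ((e p (p * q) : ℤ) : ZMod p) = 1 ∧ ((e p (p * q + 1) : ℤ) : ZMod p) = 1 ∧
      ∀ s, 2 ≤ s → s < p → ∃ u : ℤ, e p (p * q + s) = p * q * u ∧
        (1 ≤ q → (u : ZMod p) ≠ 0) := by
  have hF : Fact p.Prime := ⟨hp⟩
  have ho : Odd p := hp.odd_of_ne_two (by omega)
  induction q with
  | zero =>
    refine ⟨by simp [e_zero], by simp [e_one p hp3], ?_⟩
    intro s hs2 hsp
    refine ⟨0, ?_, by omega⟩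
    simp only [mul_zero, zero_add]
    induction s, hs2 using Nat.le_induction with
    | base =>
      rw [e_rec p 1 hp3 ho le_rfl, Nat.descFactorial_eq_zero_iff_lt.2 (by omega)]
      simp
    | succ s hs ih =>
      rw [e_rec p s hp3 ho (by omega), ih (by omega), Nat.descFactorial_eq_zero_iff_lt.2 (by omega)]
      simp
  | succ q ih =>
    obtain ⟨ha, hb, hc⟩ := ih
    have ha' : ((e p (p * (q + 1)) : ℤ) : ZMod p) = 1 := by
      have h1 : p * (q + 1) = (p * q + (p - 1)) + 1 := by
        rw [mul_add, mul_one]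
        omega
      have h2 : p * q + (p - 1) - (p - 1) = p * q := by omega
      rw [h1, e_rec p _ hp3 ho (by omega), h2]
      obtain ⟨u, hu, _⟩ := hc (p - 1) (by omega) (by omega)
      rw [hu]
      push_cast
      rw [desc_cast p q (p - 1) le_rfl, Nat.descFactorial_self, ha, ZMod.wilsons_lemma]
      simp
    have hb' : ((e p (p * (q + 1) + 1) : ℤ) : ZMod p) = 1 := by
      rw [e_rec p _ hp3 ho (by nlinarith)]
      have h1 : p * (q + 1) - (p - 1) = p * q + 1 := by
        rw [mul_add, mul_one]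
        omega
      have h2 : (((p * (q + 1)).descFactorial (p - 1) : ℕ) : ZMod p) = 0 := by
        rw [ZMod.natCast_eq_zero_iff]
        exact (Dvd.intro _ rfl).trans (desc_dvd _ _ (p * (q + 1)) le_rfl (by omega))
      rw [h1]
      push_cast
      rw [h2, ha']
      simp
    refine ⟨ha', hb', ?_⟩
    intro s hs2 hsp
    have step : ∀ s, 2 ≤ s → s < p → ∃ w : ℤ, e p (p * (q + 1) + s) =
        (1 - ((p * (q + 1) + (s - 1) : ℕ) : ℤ)) * e p (p * (q + 1) + (s - 1)) -
          (p * (q + 1 : ℕ) : ℤ) * (p * w) := by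
      intro s hs2 hsp
      have h1 : p * (q + 1) + s = (p * (q + 1) + (s - 1)) + 1 := by omega
      have h2 : p * (q + 1) + (s - 1) - (p - 1) = p * q + s := by
        rw [mul_add, mul_one]
        omega
      obtain ⟨w1, hw1⟩ := desc_dvd (p * (q + 1) + (s - 1)) (p - 1) (p * (q + 1)) (by omega)
        (by omega)
      obtain ⟨u, hu, _⟩ := hc s hs2 hsp
      refine ⟨w1 * (q * u), ?_⟩
      rw [h1, e_rec p _ hp3 ho (by nlinarith), h2, hw1, hu]
      push_cast
      ring
    induction s, hs2 using Nat.le_induction with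
    | base =>
      obtain ⟨w, hw⟩ := step 2 le_rfl (by omega)
      refine ⟨- e p (p * (q + 1) + 1) - p * w, ?_, ?_⟩
      · rw [hw]
        push_cast
        ring
      · intro _
        push_cast
        rw [hb']
        simp
    | succ s hs ih =>
      obtain ⟨w, hw⟩ := step (s + 1) (by omega) hsp
      obtain ⟨u', hu', hu0⟩ := ih (by omega)
      refine ⟨(1 - (s : ℤ) - p * (q + 1 : ℕ)) * u' - p * w, ?_, ?_⟩
      · rw [hw, Nat.add_sub_cancel, hu']
        push_cast
        ring
      · intro _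
        have h3 := hu0 (by omega)
        push_cast
        simp only [CharP.cast_eq_zero, zero_mul, sub_zero]
        refine mul_ne_zero ?_ h3
        have h4 : (1 - (s : ZMod p)) = - ((s - 1 : ℕ) : ZMod p) := by
          rw [Nat.cast_sub (by omega)]
          push_cast
          ring
        rw [h4, neg_ne_zero]
        intro h5
        rw [ZMod.natCast_eq_zero_iff] at h5
        have := Nat.le_of_dvd (by omega) h5
        omega

theorem e_ne_zero (p : ℕ) (hp : p.Prime) (hp3 : 3 ≤ p) (r : ℕ) (hr : p ≤ r) : e p r ≠ 0 := by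
  have hF : Fact p.Prime := ⟨hp⟩
  obtain ⟨ha, hb, hc⟩ := e_mod p hp hp3 (r / p)
  have h1 : r = p * (r / p) + r % p := (Nat.div_add_mod r p).symm
  have h2 : r % p < p := Nat.mod_lt _ (by omega)
  have h3 : 1 ≤ r / p := Nat.div_pos hr (by omega)
  intro h
  rcases Nat.lt_or_ge (r % p) 2 with h4 | h4
  · rcases Nat.eq_zero_or_pos (r % p) with h5 | h5
    · rw [h5, add_zero] at h1
      rw [← h1, h] at ha
      simp at ha
    · have h6 : r % p = 1 := by omega
      rw [h6] at h1
      rw [← h1, h] at hb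
      simp at hb
  · obtain ⟨u, hu, hu0⟩ := hc (r % p) h4 h2
    rw [← h1, h] at hu
    have h7 := hu0 h3
    have h8 : u ≠ 0 := by
      rintro rfl
      simp at h7
    have h9 : (p : ℤ) * (r / p : ℕ) * u ≠ 0 := by
      refine mul_ne_zero (mul_ne_zero ?_ ?_) h8
      · exact_mod_cast (by omega : p ≠ 0)
      · exact_mod_cast (by omega : r / p ≠ 0)
    exact h9 (by exact_mod_cast hu.symm)

/-- the signed number of the bad configurations does not vanish -/
theorem T_ne_zero (p : ℕ) (hp : p.Prime) (hp3 : 3 ≤ p) (r : ℕ) (hr : p ≤ r) : T p p r ≠ 0 := by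
  rw [T_eq p r (by omega) (by omega)]
  refine mul_ne_zero ?_ (e_ne_zero p hp hp3 r hr)
  have : (3 : ℤ) ≤ r := by exact_mod_cast hp3.trans hr
  omega

end Pool.Agent.W5h81.Tp
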