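import Pool.Agent.W5h81.Tp.Good

set_option autoImplicit false

/-!
MP_257582_lc. The configurations without enough disjoint connected sets.
-/

namespace Pool.Agent.W5h81.Tp

open Finset
open Pool.Agent.H119R2.Kp (GP PV pve_map_adj)
open Pool.Agent.TH669.KP (GR GR_adj rel_orb sgn bit)

variable {f m p : ℕ}
variable {η : Jo f → Bool} {τ : Tx m p → Bool}

theorem rc_of_rtg {s : Finset (Vx f m p)} {x y : Vx f m p}
    (h : Relation.ReflTransGen (St (Gg f m p (Sum.elim η τ)).Adj s) x y) :
    Rc (XX f η) (pr x) (pr y) := by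
  induction h with
  | refl => exact Relation.ReflTransGen.refl
  | tail _ h2 ih =>
    rcases adj_pr h2.1 with h3 | h3
    · rwa [← h3]
    · exact ih.tail h3

theorem bad [NeZero m] [NeZero p] (hη : Bad p η) {ι : Type} [Fintype ι]
    (hι : Fintype.card ι = m + 1) : ¬ HT ι p (Gg f m p (Sum.elim η τ)).Adj := by
  classical
  rintro ⟨s, h1, h2, h3⟩
  obtain ⟨hb1, hb2⟩ := hη
  have hsy : ∀ a b : Vx f m p, (Gg f m p (Sum.elim η τ)).Adj a b →
      (Gg f m p (Sum.elim η τ)).Adj b a := fun a b h => h.symm
  have key : ∀ i, ∀ x ∈ s i, pr x ∈ cm (XX f η) none := by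
    intro i x hx
    by_contra hcon
    have h5 : ∀ y ∈ s i, pr y ∈ cm (XX f η) (pr x) := by
      intro y hy
      rw [mem_cm]
      exact rc_of_rtg ((h3 i).root hsy hx hy)
    have h6 : ∀ y ∈ s i, pr y ≠ none := by
      intro y hy hn
      apply hcon
      have h7 := h5 y hy
      rw [hn] at h7
      rw [cm_eq_of_mem h7]
      exact self_mem_cm _ _
    have h8 : ((s i).image pr).card = (s i).card := by
      refine Finset.card_image_of_injOn ?_
      intro y hy z hz hyz
      have h9 := h6 y hy
      rcases y with y | y <;> rcases z with z | z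
      · simp only [pr, Option.some.injEq] at hyz
        rw [hyz]
      · cases hyz
      · exact absurd rfl h9
      · exact absurd rfl h9
    have h9 : (s i).image pr ⊆ cm (XX f η) (pr x) := by
      intro o ho
      obtain ⟨y, hy, rfl⟩ := Finset.mem_image.1 ho
      exact h5 y hy
    have h10 := Finset.card_le_card h9
    have h11 := hb2 (pr x) hcon
    rw [h8, h1] at h10
    omega
  have hU : univ.biUnion s ⊆ (flt (cm (XX f η) none)).disjSum (univ : Finset (ZMod m × ZMod p)) := by
    intro x hx
    obtain ⟨i, _, hi⟩ := Finset.mem_biUnion.1 hx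
    rcases x with u | a
    · exact Finset.inl_mem_disjSum.2 (mem_flt.2 (key i _ hi))
    · exact Finset.inr_mem_disjSum.2 (Finset.mem_univ _)
  have h4 := Finset.card_le_card hU
  rw [Finset.card_biUnion (fun i _ j _ hij => h2 i j hij), Finset.sum_congr rfl fun i _ => h1 i,
    Finset.sum_const, Finset.card_univ, hι, Finset.card_disjSum, card_flt,
    Finset.card_erase_of_mem (self_mem_cm _ _), Finset.card_univ, Fintype.card_prod, ZMod.card,
    ZMod.card, smul_eq_mul] at h4
  have h5 : 0 < (cm (XX f η) none).card := Finset.card_pos.2 ⟨_, self_mem_cm _ _⟩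
  have h6 : (m + 1) * p = m * p + p := by ring
  omega

/-- without edges between vertices of blocks, a connected set is in `F` or contains a fixed point
which is joined to the blocks -/
theorem zero_cases (hp : 2 ≤ p) {s : Finset (Vx f m p)} (hc : s.card = p)
    (hs : Con (Gg f m p (Sum.elim η (fun _ => false))).Adj s) :
    (∃ a : Fin f, s(some a, none) ∈ XX f η ∧ .inl a ∈ s) ∨
    ((∀ a : Fin f, .inl a ∈ s → s(some a, none) ∉ XX f η) ∧ ∀ b, .inr b ∉ s) := by
  by_cases h : ∃ a : Fin f, s(some a, none) ∈ XX f η ∧ .inl a ∈ s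
  · exact Or.inl h
  · right
    push Not at h
    refine ⟨fun a ha ha' => h a ha' ha, fun b hb => ?_⟩
    obtain ⟨x, hx, hbx, _⟩ := hs.neighbour (fun a b h => h.symm) hb (by omega)
    rcases x with a | b'
    · exact h a ((adj_fb a b).1 hbx.symm) hx
    · exact not_adj_bb _ _ hbx

/-- no fixed point is joined to the blocks -/
theorem zero_empty (hp : 2 ≤ p) (hA : ∀ a : Fin f, s(some a, none) ∉ XX f η)
    {ι : Type} [Fintype ι] (hf : f < Fintype.card ι * p) :
    ¬ HT ι p (Gg f m p (Sum.elim η (fun _ => false))).Adj := by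
  classical
  rintro ⟨s, h1, h2, h3⟩
  have hU : univ.biUnion s ⊆ (univ : Finset (Fin f)).image (fun u => (Sum.inl u : Vx f m p)) := by
    intro x hx
    obtain ⟨i, _, hi⟩ := Finset.mem_biUnion.1 hx
    rcases zero_cases hp (h1 i) (h3 i) with ⟨a, ha, _⟩ | ⟨_, h⟩
    · exact absurd ha (hA a)
    · rcases x with u | a
      · exact Finset.mem_image_of_mem _ (Finset.mem_univ _)
      · exact absurd hi (h a)
  have h4 := (Finset.card_le_card hU).trans Finset.card_image_le
  rw [Finset.card_biUnion (fun i _ j _ hij => h2 i j hij), Finset.sum_congr rfl fun i _ => h1 i,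
    Finset.sum_const, Finset.card_univ, Finset.card_univ, Fintype.card_fin, smul_eq_mul] at h4
  omega

/-- the pairs which contain a fixed point joined to the blocks do not matter -/
theorem zero_congr [NeZero m] [NeZero p] (hp : 2 ≤ p) {ι : Type} [Fintype ι]
    (hι : Fintype.card ι = m + 1) (hpm : p ≤ m + 1) {η' : Jo f → Bool}
    (hst : ∀ a : Fin f, s(some a, none) ∈ XX f η → s(some a, none) ∈ XX f η')
    (hr : ∀ a b : Fin f, s(some a, none) ∉ XX f η → s(some b, none) ∉ XX f η →
      s(some a, some b) ∈ XX f η → s(some a, some b) ∈ XX f η')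
    (h : HT ι p (Gg f m p (Sum.elim η (fun _ => false))).Adj) :
    HT ι p (Gg f m p (Sum.elim η' (fun _ => false))).Adj := by
  classical
  obtain ⟨s, h1, h2, h3⟩ := h
  have hcard : Fintype.card (ι × Fin (p - 1)) ≤ Fintype.card (ZMod m × ZMod p) := by
    rw [Fintype.card_prod, Fintype.card_prod, hι, Fintype.card_fin, ZMod.card, ZMod.card]
    obtain ⟨q, rfl⟩ : ∃ q, p = q + 1 := ⟨p - 1, by omega⟩
    rw [Nat.add_sub_cancel]
    nlinarith
  obtain ⟨g⟩ := Function.Embedding.nonempty_of_card_le hcard
  let M : ι → Prop := fun i => ∃ a : Fin f, s(some a, none) ∈ XX f η ∧ .inl a ∈ s i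
  have hM : ∀ i, ¬ M i → (∀ a : Fin f, .inl a ∈ s i → s(some a, none) ∉ XX f η) ∧
      ∀ b, .inr b ∉ s i := fun i hi => (zero_cases hp (h1 i) (h3 i)).resolve_left hi
  let c : ∀ i, M i → Fin f := fun i hi => hi.choose
  have hc1 : ∀ i (hi : M i), s(some (c i hi), none) ∈ XX f η := fun i hi => hi.choose_spec.1
  have hc2 : ∀ i (hi : M i), (Sum.inl (c i hi) : Vx f m p) ∈ s i := fun i hi => hi.choose_spec.2
  let N : ∀ i, M i → Finset (Vx f m p) := fun i hi =>
    ({c i hi} : Finset (Fin f)).disjSum (univ.image fun j : Fin (p - 1) => g (i, j))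
  refine ⟨fun i => if hi : M i then N i hi else s i, fun i => ?_, ?_, fun i => ?_⟩
  · by_cases hi : M i
    · simp only [dif_pos hi, N]
      rw [Finset.card_disjSum, Finset.card_singleton, Finset.card_image_of_injective,
        Finset.card_univ, Fintype.card_fin]
      · omega
      · intro j j' hjj
        have := g.injective hjj
        simpa using this
    · simp only [dif_neg hi]
      exact h1 i
  · have key : ∀ i j, i ≠ j → ∀ hi : M i, ¬ M j → Disjoint (N i hi) (s j) := by
      intro i j hij hi hj
      rw [Finset.disjoint_left]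
      intro x hx hx'
      rcases x with u | a
      · have h4 := Finset.mem_singleton.1 (Finset.inl_mem_disjSum.1 hx)
        subst h4
        exact Finset.disjoint_left.1 (h2 i j hij) (hc2 i hi) hx'
      · exact (hM j hj).2 a hx'
    intro i j hij
    by_cases hi : M i
    · by_cases hj : M j
      · simp only [dif_pos hi, dif_pos hj]
        rw [Finset.disjoint_left]
        intro x hx hx'
        rcases x with u | a
        · have h4 := Finset.mem_singleton.1 (Finset.inl_mem_disjSum.1 hx)
          have h5 := Finset.mem_singleton.1 (Finset.inl_mem_disjSum.1 hx')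
          have h6 := hc2 i hi
          rw [← h4] at h6
          have h7 := hc2 j hj
          rw [← h5] at h7
          exact Finset.disjoint_left.1 (h2 i j hij) h6 h7
        · obtain ⟨x, _, hx1⟩ := Finset.mem_image.1 (Finset.inr_mem_disjSum.1 hx)
          obtain ⟨y, _, hy1⟩ := Finset.mem_image.1 (Finset.inr_mem_disjSum.1 hx')
          rw [← hy1] at hx1
          exact hij (congrArg Prod.fst (g.injective hx1))
      · simp only [dif_pos hi, dif_neg hj]
        exact key i j hij hi hj
    · by_cases hj : M j
      · simp only [dif_neg hi, dif_pos hj]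
        exact (key j i (fun h => hij h.symm) hj hi).symm
      · simp only [dif_neg hi, dif_neg hj]
        exact h2 i j hij
  · by_cases hi : M i
    · simp only [dif_pos hi]
      refine Con.star (r := .inl (c i hi)) ?_ ?_
      · exact Finset.inl_mem_disjSum.2 (Finset.mem_singleton_self _)
      · intro x hx hxr
        rcases x with u | a
        · exfalso
          have h4 := Finset.mem_singleton.1 (Finset.inl_mem_disjSum.1 hx)
          exact hxr (by rw [h4])
        · exact (adj_fb _ _).2 (hst _ (hc1 i hi))
    · simp only [dif_neg hi]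
      obtain ⟨h4, h5⟩ := hM i hi
      refine (h3 i).mono fun x y hx hy hxy => ?_
      rcases x with u | a
      · rcases y with v | b
        · exact (adj_ff u v).2 (hr u v (h4 u hx) (h4 v hy) ((adj_ff u v).1 hxy))
        · exact absurd hy (h5 b)
      · exact absurd hx (h5 a)

end Pool.Agent.W5h81.Tp
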