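import Pool.Agent.TH669.KP.Orb
import Pool.Agent.H119R2.Kp.PVE

set_option autoImplicit false

/-!
MP_257582_lc. Connected sets of vertices and families of disjoint connected sets.
-/

namespace Pool.Agent.W5h81.Tp

open Finset
open Pool.Agent.H119R2.Kp (GP PV pve_map_adj)

section con

variable {V W : Type}

theorem rtg_lift {R : V → V → Prop} {S : W → W → Prop} (f : V → W)
    (h : ∀ a b, R a b → S (f a) (f b)) {a b : V} (hab : Relation.ReflTransGen R a b) :
    Relation.ReflTransGen S (f a) (f b) := by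
  induction hab with
  | refl => exact Relation.ReflTransGen.refl
  | tail _ h2 ih => exact ih.tail (h _ _ h2)

/-- one step inside `s` -/
def St (A : V → V → Prop) (s : Finset V) (a b : V) : Prop := A a b ∧ a ∈ s ∧ b ∈ s

/-- the set `s` is nonempty and connected -/
def Con (A : V → V → Prop) (s : Finset V) : Prop :=
  ∃ r ∈ s, ∀ x ∈ s, Relation.ReflTransGen (St A s) r x

theorem St.mono {A B : V → V → Prop} {s t : Finset V} (h : ∀ a b, A a b → B a b) (hst : s ⊆ t)
    {a b : V} (hab : St A s a b) : St B t a b := ⟨h _ _ hab.1, hst hab.2.1, hst hab.2.2⟩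

theorem rtg_mono {A B : V → V → Prop} {s t : Finset V} (h : ∀ a b, A a b → B a b) (hst : s ⊆ t)
    {a b : V} (hab : Relation.ReflTransGen (St A s) a b) : Relation.ReflTransGen (St B t) a b :=
  rtg_lift id (fun _ _ h' => St.mono h hst h') hab

theorem rtg_symm {A : V → V → Prop} (hA : ∀ a b, A a b → A b a) {s : Finset V} {a b : V}
    (h : Relation.ReflTransGen (St A s) a b) : Relation.ReflTransGen (St A s) b a := by
  induction h with
  | refl => exact Relation.ReflTransGen.refl
  | tail _ h2 ih => exact Relation.ReflTransGen.head ⟨hA _ _ h2.1, h2.2.2, h2.2.1⟩ ih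

theorem Con.root {A : V → V → Prop} (hA : ∀ a b, A a b → A b a) {s : Finset V} (h : Con A s)
    {r : V} (hr : r ∈ s) {x : V} (hx : x ∈ s) : Relation.ReflTransGen (St A s) r x := by
  obtain ⟨r0, _, h0⟩ := h
  exact (rtg_symm hA (h0 r hr)).trans (h0 x hx)

theorem Con.mono {A B : V → V → Prop} {s : Finset V} (h : ∀ a b, a ∈ s → b ∈ s → A a b → B a b)
    (hs : Con A s) : Con B s := by
  obtain ⟨r, hr, h0⟩ := hs
  exact ⟨r, hr, fun x hx => rtg_lift id
    (fun a b h' => ⟨h _ _ h'.2.1 h'.2.2 h'.1, h'.2⟩) (h0 x hx)⟩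

theorem Con.map {A : V → V → Prop} {B : W → W → Prop} [DecidableEq W] (φ : V → W) {s : Finset V}
    (h : ∀ a b, a ∈ s → b ∈ s → A a b → B (φ a) (φ b)) (hs : Con A s) : Con B (s.image φ) := by
  obtain ⟨r, hr, h0⟩ := hs
  refine ⟨φ r, Finset.mem_image_of_mem _ hr, fun y hy => ?_⟩
  obtain ⟨x, hx, rfl⟩ := Finset.mem_image.1 hy
  have := h0 x hx
  exact rtg_lift φ (fun a b h' => ⟨h _ _ h'.2.1 h'.2.2 h'.1,
    Finset.mem_image_of_mem _ h'.2.1, Finset.mem_image_of_mem _ h'.2.2⟩) this

/-- adding vertices with a neighbour in `s` -/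
theorem Con.extend {A : V → V → Prop} {s t : Finset V} (hs : Con A s) (hst : s ⊆ t)
    (h : ∀ x ∈ t, x ∉ s → ∃ y ∈ s, A y x) : Con A t := by
  obtain ⟨r, hr, h0⟩ := hs
  refine ⟨r, hst hr, fun x hx => ?_⟩
  by_cases hxs : x ∈ s
  · exact rtg_mono (fun _ _ h => h) hst (h0 x hxs)
  · obtain ⟨y, hy, hyx⟩ := h x hx hxs
    exact (rtg_mono (fun _ _ h => h) hst (h0 y hy)).tail ⟨hyx, hst hy, hx⟩

/-- a star is connected -/
theorem Con.star {A : V → V → Prop} {s : Finset V} {r : V} (hr : r ∈ s)
    (h : ∀ x ∈ s, x ≠ r → A r x) : Con A s := by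
  refine ⟨r, hr, fun x hx => ?_⟩
  by_cases hxr : x = r
  · rw [hxr]
  · exact Relation.ReflTransGen.single ⟨h x hx hxr, hr, hx⟩

/-- connected subsets of all sizes, which contain a given vertex -/
theorem Con.exists_subset [DecidableEq V] {A : V → V → Prop} (hA : ∀ a b, A a b → A b a)
    {s : Finset V} (hs : Con A s) {v : V} (hv : v ∈ s) (j : ℕ) (hj : 1 ≤ j) (hjs : j ≤ s.card) :
    ∃ t ⊆ s, v ∈ t ∧ t.card = j ∧ Con A t := by
  induction j, hj using Nat.le_induction with
  | base =>
    exact ⟨{v}, by simpa using hv, Finset.mem_singleton_self v, Finset.card_singleton v,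
      v, Finset.mem_singleton_self v, fun x hx => by rw [Finset.mem_singleton.1 hx]⟩
  | succ j hj ih =>
    obtain ⟨t, hts, hvt, htc, ht⟩ := ih (by omega)
    -- a step that leaves `t`
    have h1 : ∃ a ∈ t, ∃ b ∈ s, b ∉ t ∧ A a b := by
      by_contra hcon
      push Not at hcon
      have h2 : ∀ x, Relation.ReflTransGen (St A s) v x → x ∈ t := by
        intro x hx
        induction hx with
        | refl => exact hvt
        | tail _ h3 ih3 =>
          by_contra h4
          exact hcon _ ih3 _ h3.2.2 h4 h3.1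
      have h3 : s ⊆ t := fun x hx => h2 x (hs.root hA hv hx)
      have h4 := Finset.card_le_card h3
      omega
    obtain ⟨a, ha, b, hb, hbt, hab⟩ := h1
    refine ⟨insert b t, ?_, Finset.mem_insert_of_mem hvt, ?_, ?_⟩
    · intro x hx
      rcases Finset.mem_insert.1 hx with rfl | hx
      · exact hb
      · exact hts hx
    · rw [Finset.card_insert_of_notMem hbt, htc]
    · refine ht.extend (Finset.subset_insert _ _) fun x hx hxt => ?_
      rcases Finset.mem_insert.1 hx with rfl | hx
      · exact ⟨a, ha, hab⟩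
      · exact absurd hx hxt

/-- a vertex of a connected set with at least two elements has a neighbour in the set -/
theorem Con.neighbour {A : V → V → Prop} (hA : ∀ a b, A a b → A b a)
    {s : Finset V} (hs : Con A s) {v : V} (hv : v ∈ s) (h2 : 2 ≤ s.card) :
    ∃ x ∈ s, A v x ∧ x ≠ v := by
  by_contra hcon
  push Not at hcon
  have h3 : ∀ x, Relation.ReflTransGen (St A s) v x → x = v := by
    intro x hx
    induction hx with
    | refl => rfl
    | tail _ h4 ih => exact hcon _ h4.2.2 (by rw [← ih]; exact h4.1)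
  have h4 : s ⊆ {v} := fun x hx => Finset.mem_singleton.2 (h3 x (hs.root hA hv hx))
  have h5 := Finset.card_le_card h4
  rw [Finset.card_singleton] at h5
  omega

/-- splitting a connected set at one of its vertices -/
theorem Con.split [DecidableEq V] {A : V → V → Prop} (hA : ∀ a b, A a b → A b a)
    {s : Finset V} (hs : Con A s) {v : V} (hv : v ∈ s) (h2 : 2 ≤ s.card) :
    Con A (s.erase v) ∨ ∃ X Y : Finset V, X.Nonempty ∧ Y.Nonempty ∧ Disjoint X Y ∧
      X ∪ Y = s.erase v ∧ Con A (insert v X) ∧ Con A (insert v Y) := by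
  classical
  -- a neighbour of `v`
  obtain ⟨x, hxs, hvx, hxv⟩ := hs.neighbour hA hv h2
  set X := (s.erase v).filter fun y => Relation.ReflTransGen (St A (s.erase v)) x y with hX
  have hxX : x ∈ X := by
    rw [hX, Finset.mem_filter]
    exact ⟨Finset.mem_erase.2 ⟨hxv, hxs⟩, Relation.ReflTransGen.refl⟩
  have hcl : ∀ a ∈ X, ∀ b ∈ s.erase v, A a b → b ∈ X := by
    intro a ha b hb hab
    rw [hX, Finset.mem_filter] at ha ⊢
    exact ⟨hb, ha.2.tail ⟨hab, ha.1, hb⟩⟩
  have hXc : Con A X := by
    refine ⟨x, hxX, fun y hy => ?_⟩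
    have h3 := (Finset.mem_filter.1 hy).2
    have h4 : Relation.ReflTransGen (St A X) x y ∧ y ∈ X := by
      clear hy
      induction h3 with
      | refl => exact ⟨Relation.ReflTransGen.refl, hxX⟩
      | tail _ h5 ih =>
        have h6 := hcl _ ih.2 _ h5.2.2 h5.1
        exact ⟨ih.1.tail ⟨h5.1, ih.2, h6⟩, h6⟩
    exact h4.1
  have hXs : X ⊆ s.erase v := Finset.filter_subset _ _
  by_cases hXe : X = s.erase v
  · left
    rwa [← hXe]
  · right
    set Y := (s.erase v) \ X with hY
    have hYn : Y.Nonempty := by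
      rw [Finset.nonempty_iff_ne_empty]
      intro h
      exact hXe (Finset.Subset.antisymm hXs (Finset.sdiff_eq_empty_iff_subset.1 h))
    refine ⟨X, Y, ⟨x, hxX⟩, hYn, Finset.disjoint_sdiff, ?_, ?_, ?_⟩
    · exact Finset.union_sdiff_of_subset hXs
    · refine hXc.extend (Finset.subset_insert _ _) fun y hy hyX => ?_
      rcases Finset.mem_insert.1 hy with rfl | hy
      · exact ⟨x, hxX, hA _ _ hvx⟩
      · exact absurd hy hyX
    · refine ⟨v, Finset.mem_insert_self _ _, ?_⟩
      have h3 : ∀ y, Relation.ReflTransGen (St A s) v y →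
          y ∈ X ∨ (y ∈ insert v Y ∧ Relation.ReflTransGen (St A (insert v Y)) v y) := by
        intro y hy
        induction hy with
        | refl => exact Or.inr ⟨Finset.mem_insert_self _ _, Relation.ReflTransGen.refl⟩
        | @tail b c _ h5 ih =>
          by_cases hcv : c = v
          · rw [hcv]
            exact Or.inr ⟨Finset.mem_insert_self _ _, Relation.ReflTransGen.refl⟩
          · have hc : c ∈ s.erase v := Finset.mem_erase.2 ⟨hcv, h5.2.2⟩
            by_cases hcX : c ∈ X
            · exact Or.inl hcX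
            · have hcY : c ∈ insert v Y :=
                Finset.mem_insert_of_mem (Finset.mem_sdiff.2 ⟨hc, hcX⟩)
              rcases ih with ih | ⟨ih1, ih2⟩
              · exact absurd (hcl b ih c hc h5.1) hcX
              · exact Or.inr ⟨hcY, ih2.tail ⟨h5.1, ih1, hcY⟩⟩
      intro y hy
      have hys : y ∈ s := by
        rcases Finset.mem_insert.1 hy with rfl | hy
        · exact hv
        · exact (Finset.mem_erase.1 (Finset.mem_sdiff.1 hy).1).2
      rcases h3 y (hs.root hA hv hys) with h4 | h4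
      · exfalso
        rcases Finset.mem_insert.1 hy with rfl | hy
        · exact (Finset.mem_erase.1 (hXs h4)).1 rfl
        · exact (Finset.mem_sdiff.1 hy).2 h4
      · exact h4.2

end con

section fam

variable {V W : Type}

/-- a family of pairwise disjoint connected sets of size `p`, with index set `ι` -/
def HT (ι : Type) (p : ℕ) (A : V → V → Prop) : Prop :=
  ∃ s : ι → Finset V, (∀ i, (s i).card = p) ∧ (∀ i j, i ≠ j → Disjoint (s i) (s j)) ∧
    ∀ i, Con A (s i)

theorem HT.comp {ι κ : Type} {p : ℕ} {A : V → V → Prop} (e : ι ↪ κ) (h : HT κ p A) :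
    HT ι p A := by
  obtain ⟨s, h1, h2, h3⟩ := h
  exact ⟨fun i => s (e i), fun i => h1 _, fun i j hij => h2 _ _ fun h => hij (e.injective h),
    fun i => h3 _⟩

theorem HT.card {ι κ : Type} [Fintype ι] [Fintype κ] {p : ℕ} {A : V → V → Prop}
    (hc : Fintype.card ι ≤ Fintype.card κ) (h : HT κ p A) : HT ι p A := by
  obtain ⟨e⟩ := Function.Embedding.nonempty_of_card_le hc
  exact h.comp e

theorem HT.map [DecidableEq W] {ι : Type} {p : ℕ} {A : V → V → Prop} {B : W → W → Prop}
    (e : V → W) (he : Function.Injective e) (hAB : ∀ a b, A a b → B (e a) (e b))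
    (h : HT ι p A) : HT ι p B := by
  obtain ⟨s, h1, h2, h3⟩ := h
  refine ⟨fun i => (s i).image e, fun i => ?_, fun i j hij => ?_, fun i => ?_⟩
  · rw [Finset.card_image_of_injective _ he, h1]
  · rw [Finset.disjoint_left]
    intro x hx hx'
    obtain ⟨a, ha, rfl⟩ := Finset.mem_image.1 hx
    obtain ⟨b, hb, hab⟩ := Finset.mem_image.1 hx'
    rw [he hab] at hb
    exact Finset.disjoint_left.1 (h2 i j hij) ha hb
  · exact (h3 i).map e fun a b _ _ h => hAB a b h

/-- in terms of induced subgraphs -/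
theorem con_iff (G : SimpleGraph V) (s : Finset V) :
    Con G.Adj s ↔ (G.induce (s : Set V)).Connected := by
  constructor
  · rintro ⟨r, hr, h⟩
    have h1 : ∀ x, Relation.ReflTransGen (St G.Adj s) r x → ∀ hx : x ∈ (s : Set V),
        (G.induce (s : Set V)).Reachable ⟨r, hr⟩ ⟨x, hx⟩ := by
      intro x hx
      induction hx with
      | refl => intro _; exact SimpleGraph.Reachable.refl _
      | @tail b c _ h3 ih =>
        intro hc
        have h4 : (G.induce (s : Set V)).Adj ⟨b, h3.2.1⟩ ⟨c, hc⟩ := by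
          simpa using h3.1
        exact (ih h3.2.1).trans h4.reachable
    rw [SimpleGraph.connected_iff]
    refine ⟨?_, ⟨⟨r, hr⟩⟩⟩
    rintro ⟨x, hx⟩ ⟨y, hy⟩
    exact (h1 x (h x hx) hx).symm.trans (h1 y (h y hy) hy)
  · intro h
    obtain ⟨h1, ⟨⟨r, hr⟩⟩⟩ := (SimpleGraph.connected_iff _).1 h
    refine ⟨r, hr, fun x hx => ?_⟩
    have h2 := h1 ⟨r, hr⟩ ⟨x, hx⟩
    rw [SimpleGraph.reachable_iff_reflTransGen] at h2
    exact rtg_lift (fun y : (s : Set V) => (y : V))
      (fun a b hab => ⟨by simpa using hab, a.2, b.2⟩) h2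

end fam

end Pool.Agent.W5h81.Tp
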