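import Pool.Agent.W5h81.Tp.Arith

set_option autoImplicit false

/-!
MP_257582_lc. The signed number of the graphs with small components.
-/

namespace Pool.Agent.W5h81.Tp

open Finset

variable {V : Type} [DecidableEq V] [Fintype V]

/-- the pairs of distinct elements of `W` -/
def E (W : Finset V) : Finset (Sym2 V) := W.sym2.filter (fun e => ¬ e.IsDiag)

omit [Fintype V] in
theorem mem_E {W : Finset V} {a b : V} : s(a, b) ∈ E W ↔ a ∈ W ∧ b ∈ W ∧ a ≠ b := by
  simp [E, and_assoc]

/-- the second vertex can be reached from the first one by pairs in `X` -/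
def Rc (X : Finset (Sym2 V)) : V → V → Prop := Relation.ReflTransGen fun a b => s(a, b) ∈ X

omit [DecidableEq V] [Fintype V] in
theorem Rc_symm {X : Finset (Sym2 V)} {a b : V} (h : Rc X a b) : Rc X b a := by
  induction h with
  | refl => exact Relation.ReflTransGen.refl
  | tail _ h2 ih => exact Relation.ReflTransGen.head (by rwa [Sym2.eq_swap]) ih

open Classical in
/-- the component of `v` -/
noncomputable def cm (X : Finset (Sym2 V)) (v : V) : Finset V := univ.filter (Rc X v)

omit [DecidableEq V] in
theorem mem_cm {X : Finset (Sym2 V)} {v w : V} : w ∈ cm X v ↔ Rc X v w := by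
  unfold cm
  simp

omit [DecidableEq V] in
theorem self_mem_cm (X : Finset (Sym2 V)) (v : V) : v ∈ cm X v :=
  mem_cm.2 Relation.ReflTransGen.refl

omit [DecidableEq V] in
theorem cm_eq_of_mem {X : Finset (Sym2 V)} {v w : V} (h : w ∈ cm X v) : cm X w = cm X v := by
  ext x
  rw [mem_cm] at h
  rw [mem_cm, mem_cm]
  exact ⟨fun h' => h.trans h', fun h' => (Rc_symm h).trans h'⟩

omit [DecidableEq V] [Fintype V] in
theorem agree {X Y : Finset (Sym2 V)} {D : V → Prop}
    (hXY : ∀ a b, D a → s(a, b) ∈ X → s(a, b) ∈ Y)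
    (hD : ∀ a b, D a → s(a, b) ∈ X → D b) {v : V} (hv : D v) {w : V} (h : Rc X v w) :
    Rc Y v w ∧ D w := by
  induction h with
  | refl => exact ⟨Relation.ReflTransGen.refl, hv⟩
  | tail _ h2 ih => exact ⟨ih.1.tail (hXY _ _ ih.2 h2), hD _ _ ih.2 h2⟩

omit [DecidableEq V] in
theorem cm_agree {X Y : Finset (Sym2 V)} {D : V → Prop}
    (hXY : ∀ a b, D a → (s(a, b) ∈ X ↔ s(a, b) ∈ Y))
    (hD : ∀ a b, D a → s(a, b) ∈ X → D b) {v : V} (hv : D v) : cm X v = cm Y v := by
  ext w
  rw [mem_cm, mem_cm]
  exact ⟨fun h => (agree (fun a b ha h' => (hXY a b ha).1 h') hD hv h).1,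
    fun h => (agree (fun a b ha h' => (hXY a b ha).2 h')
      (fun a b ha h' => hD a b ha ((hXY a b ha).2 h')) hv h).1⟩

theorem cm_subset {X : Finset (Sym2 V)} {W : Finset V} (hX : X ⊆ E W) {v : V} (hv : v ∈ W) :
    cm X v ⊆ W := by
  intro w hw
  rw [mem_cm] at hw
  exact (agree (X := X) (Y := X) (D := fun x => x ∈ W) (fun a b _ h => h)
    (fun a b _ h => (mem_E.1 (hX h)).2.1) hv hw).2

variable {W C : Finset V} {v : V}

theorem closed_cm {X : Finset (Sym2 V)} {a b : V} (ha : a ∈ cm X v) (h : s(a, b) ∈ X) :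
    b ∈ cm X v := by
  rw [mem_cm] at ha ⊢
  exact ha.tail h

/-- a graph is the union of the component of `v` and the rest -/
theorem split_eq {X : Finset (Sym2 V)} (hX : X ⊆ E W) (hC : cm X v = C) :
    X ∩ E C ∪ X ∩ E (W \ C) = X := by
  ext e
  rw [Finset.mem_union, Finset.mem_inter, Finset.mem_inter]
  constructor
  · rintro (h | h) <;> exact h.1
  · intro h
    induction e using Sym2.ind with
    | _ a b =>
      obtain ⟨h1, h2, h3⟩ := mem_E.1 (hX h)
      by_cases ha : a ∈ C
      · left
        refine ⟨h, mem_E.2 ⟨ha, ?_, h3⟩⟩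
        rw [← hC] at ha ⊢
        exact closed_cm ha h
      · right
        have hb : b ∉ C := by
          intro hb
          apply ha
          rw [← hC] at hb ⊢
          exact closed_cm hb (by rwa [Sym2.eq_swap])
        exact ⟨h, mem_E.2 ⟨Finset.mem_sdiff.2 ⟨h1, ha⟩, Finset.mem_sdiff.2 ⟨h2, hb⟩, h3⟩⟩

theorem cm_inter {X : Finset (Sym2 V)} (hX : X ⊆ E W) (hC : cm X v = C) :
    cm (X ∩ E C) v = C := by
  rw [← hC]
  symm
  refine cm_agree (D := fun x => x ∈ cm X v) ?_ (fun a b ha h => closed_cm ha h) (self_mem_cm _ _)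
  intro a b ha
  rw [Finset.mem_inter]
  refine ⟨fun h => ⟨h, mem_E.2 ⟨ha, closed_cm ha h, (mem_E.1 (hX h)).2.2⟩⟩, fun h => h.1⟩

theorem cm_union {X Y : Finset (Sym2 V)} (hY : Y ⊆ E (W \ C)) (hC : cm X v = C) :
    cm (X ∪ Y) v = C := by
  rw [← hC]
  symm
  refine cm_agree (D := fun x => x ∈ cm X v) ?_ (fun a b ha h => closed_cm ha h) (self_mem_cm _ _)
  intro a b ha
  rw [Finset.mem_union]
  refine ⟨fun h => Or.inl h, fun h => h.elim id fun h' => ?_⟩
  rw [hC] at ha
  exact absurd ha (Finset.mem_sdiff.1 (mem_E.1 (hY h')).1).2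

theorem cm_rest {X Y : Finset (Sym2 V)} (hX : X ⊆ E C) (hY : Y ⊆ E (W \ C)) {w : V}
    (hw : w ∉ C) : cm (X ∪ Y) w = cm Y w := by
  refine cm_agree (D := fun x => x ∉ C) ?_ ?_ hw
  · intro a b ha
    rw [Finset.mem_union]
    exact ⟨fun h => h.elim (fun h' => absurd (mem_E.1 (hX h')).1 ha) id, fun h => Or.inr h⟩
  · intro a b ha h
    rw [Finset.mem_union] at h
    rcases h with h | h
    · exact absurd (mem_E.1 (hX h)).1 ha
    · exact (Finset.mem_sdiff.1 (mem_E.1 (hY h)).2.1).2

omit [Fintype V] in
theorem E_disj : Disjoint (E C) (E (W \ C)) := by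
  rw [Finset.disjoint_left]
  intro e h1 h2
  induction e using Sym2.ind with
  | _ a b => exact (Finset.mem_sdiff.1 (mem_E.1 h2).1).2 (mem_E.1 h1).1

open Classical in
/-- signed number of the graphs on `W` all components of which have a size with `K` -/
noncomputable def S (K : ℕ → Prop) (W : Finset V) : ℤ :=
  ∑ X ∈ (E W).powerset, (-1) ^ X.card * (if ∀ w ∈ W, K (cm X w).card then 1 else 0)

open Classical in
/-- the same with another condition for the component of `v` -/
noncomputable def Dd (J K : ℕ → Prop) (W : Finset V) (v : V) : ℤ :=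
  ∑ X ∈ (E W).powerset, (-1) ^ X.card *
    (if J (cm X v).card ∧ ∀ w ∈ W, w ∉ cm X v → K (cm X w).card then 1 else 0)

open Classical in
/-- signed number of the connected graphs -/
noncomputable def cc (C : Finset V) (v : V) : ℤ :=
  ∑ X ∈ (E C).powerset with cm X v = C, (-1) ^ X.card

open Classical in
theorem fiber (K : ℕ → Prop) (hCW : C ⊆ W) :
    ∑ X ∈ (E W).powerset with cm X v = C, (-1) ^ X.card *
      (if ∀ w ∈ W, w ∉ C → K (cm X w).card then (1 : ℤ) else 0) = cc C v * S K (W \ C) := by
  unfold cc S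
  rw [Finset.sum_mul_sum, ← Finset.sum_product']
  refine Finset.sum_nbij' (fun X => (X ∩ E C, X ∩ E (W \ C))) (fun Y => Y.1 ∪ Y.2) ?_ ?_ ?_ ?_ ?_
  · intro X hX
    rw [Finset.mem_filter, Finset.mem_powerset] at hX
    rw [Finset.mem_product, Finset.mem_filter, Finset.mem_powerset, Finset.mem_powerset]
    exact ⟨⟨Finset.inter_subset_right, cm_inter hX.1 hX.2⟩, Finset.inter_subset_right⟩
  · rintro ⟨X, Y⟩ hXY
    rw [Finset.mem_product, Finset.mem_filter, Finset.mem_powerset, Finset.mem_powerset] at hXY
    rw [Finset.mem_filter, Finset.mem_powerset]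
    refine ⟨Finset.union_subset (hXY.1.1.trans ?_) (hXY.2.trans ?_), cm_union hXY.2 hXY.1.2⟩
    · intro e he
      induction e using Sym2.ind with
      | _ a b =>
        obtain ⟨h1, h2, h3⟩ := mem_E.1 he
        exact mem_E.2 ⟨hCW h1, hCW h2, h3⟩
    · intro e he
      induction e using Sym2.ind with
      | _ a b =>
        obtain ⟨h1, h2, h3⟩ := mem_E.1 he
        exact mem_E.2 ⟨(Finset.mem_sdiff.1 h1).1, (Finset.mem_sdiff.1 h2).1, h3⟩
  · intro X hX
    rw [Finset.mem_filter, Finset.mem_powerset] at hX
    exact split_eq hX.1 hX.2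
  · rintro ⟨X, Y⟩ hXY
    rw [Finset.mem_product, Finset.mem_filter, Finset.mem_powerset, Finset.mem_powerset] at hXY
    obtain ⟨⟨h1, _⟩, h2⟩ := hXY
    simp only at h1 h2
    have h3 : X ∩ E (W \ C) = ∅ := by
      rw [← Finset.disjoint_iff_inter_eq_empty]
      exact Finset.disjoint_of_subset_left h1 E_disj
    have h4 : Y ∩ E C = ∅ := by
      rw [← Finset.disjoint_iff_inter_eq_empty]
      exact Finset.disjoint_of_subset_left h2 E_disj.symm
    refine Prod.ext ?_ ?_
    · simp only [Finset.union_inter_distrib_right, h4, Finset.union_empty]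
      exact Finset.inter_eq_left.2 h1
    · simp only [Finset.union_inter_distrib_right, h3, Finset.empty_union]
      exact Finset.inter_eq_left.2 h2
  · intro X hX
    rw [Finset.mem_filter, Finset.mem_powerset] at hX
    have h1 : X.card = (X ∩ E C).card + (X ∩ E (W \ C)).card := by
      rw [← Finset.card_union_of_disjoint, split_eq hX.1 hX.2]
      exact Finset.disjoint_of_subset_left Finset.inter_subset_right
        (Finset.disjoint_of_subset_right Finset.inter_subset_right E_disj)
    have h2 : (∀ w ∈ W, w ∉ C → K (cm X w).card) ↔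
        ∀ w ∈ W \ C, K (cm (X ∩ E (W \ C)) w).card := by
      have h3 : ∀ w, w ∉ C → cm X w = cm (X ∩ E (W \ C)) w := by
        intro w hw
        conv_lhs => rw [← split_eq hX.1 hX.2]
        exact cm_rest (W := W) Finset.inter_subset_right Finset.inter_subset_right hw
      constructor
      · intro h w hw
        rw [Finset.mem_sdiff] at hw
        rw [← h3 w hw.2]
        exact h w hw.1 hw.2
      · intro h w hw hw'
        rw [h3 w hw']
        exact h w (Finset.mem_sdiff.2 ⟨hw, hw'⟩)
    simp only [h2]
    rw [h1, pow_add]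
    ring

open Classical in
theorem Dd_eq (J K : ℕ → Prop) (hv : v ∈ W) : Dd J K W v =
    ∑ C ∈ W.powerset with v ∈ C, (if J C.card then 1 else 0) * (cc C v * S K (W \ C)) := by
  unfold Dd
  rw [← Finset.sum_fiberwise_of_maps_to (g := fun X => cm X v)
    (t := W.powerset.filter (fun C => v ∈ C))]
  · refine Finset.sum_congr rfl fun C hC => ?_
    rw [Finset.mem_filter, Finset.mem_powerset] at hC
    rw [← fiber K hC.1, Finset.mul_sum]
    refine Finset.sum_congr rfl fun X hX => ?_
    rw [Finset.mem_filter] at hX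
    rw [hX.2]
    by_cases h1 : J C.card
    · rw [if_pos h1, one_mul]
      simp only [h1, true_and]
    · rw [if_neg h1, if_neg (fun h => h1 h.1)]
      ring
  · intro X hX
    rw [Finset.mem_powerset] at hX
    rw [Finset.mem_filter, Finset.mem_powerset]
    exact ⟨cm_subset hX hv, self_mem_cm _ _⟩

theorem S_eq_Dd (K : ℕ → Prop) (hv : v ∈ W) : S K W = Dd K K W v := by
  classical
  unfold S Dd
  refine Finset.sum_congr rfl fun X _ => ?_
  congr 1
  have h : (∀ w ∈ W, K (cm X w).card) ↔
      (K (cm X v).card ∧ ∀ w ∈ W, w ∉ cm X v → K (cm X w).card) := by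
    constructor
    · intro h
      exact ⟨h v hv, fun w hw _ => h w hw⟩
    · rintro ⟨h1, h2⟩ w hw
      by_cases h3 : w ∈ cm X v
      · rw [cm_eq_of_mem h3]
        exact h1
      · exact h2 w hw h3
  simp only [h]

omit [Fintype V] in
theorem E_eq_empty : E W = ∅ ↔ W.card ≤ 1 := by
  rw [Finset.card_le_one, Finset.eq_empty_iff_forall_notMem]
  constructor
  · intro h a ha b hb
    by_contra hab
    exact h s(a, b) (mem_E.2 ⟨ha, hb, hab⟩)
  · intro h e he
    induction e using Sym2.ind with
    | _ a b =>
      obtain ⟨h1, h2, h3⟩ := mem_E.1 he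
      exact h3 (h a h1 b h2)

theorem S_true : S (fun _ => True) W = if W.card ≤ 1 then 1 else 0 := by
  classical
  unfold S
  simp only [implies_true, if_true, mul_one]
  rw [Finset.sum_powerset_neg_one_pow_card]
  simp only [E_eq_empty]

omit [Fintype V] in
theorem sum_through (hv : v ∈ W) (g : ℕ → ℤ) :
    ∑ C ∈ W.powerset with v ∈ C, g C.card =
      ∑ j ∈ range W.card, ((W.card - 1).choose j : ℤ) * g (j + 1) := by
  have h1 : ∑ C ∈ W.powerset with v ∈ C, g C.card =
      ∑ C ∈ (W.erase v).powerset, g (C.card + 1) := by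
    refine Finset.sum_nbij' (fun C => C.erase v) (fun C => insert v C) ?_ ?_ ?_ ?_ ?_
    · intro C hC
      rw [Finset.mem_filter, Finset.mem_powerset] at hC
      rw [Finset.mem_powerset]
      exact Finset.erase_subset_erase _ hC.1
    · intro C hC
      rw [Finset.mem_powerset] at hC
      rw [Finset.mem_filter, Finset.mem_powerset]
      refine ⟨Finset.insert_subset hv (hC.trans (Finset.erase_subset _ _)),
        Finset.mem_insert_self _ _⟩
    · intro C hC
      rw [Finset.mem_filter] at hC
      exact Finset.insert_erase hC.2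
    · intro C hC
      rw [Finset.mem_powerset] at hC
      refine Finset.erase_insert fun h => ?_
      exact (Finset.mem_erase.1 (hC h)).1 rfl
    · intro C hC
      rw [Finset.mem_filter] at hC
      rw [Finset.card_erase_add_one hC.2]
  rw [h1, Finset.sum_powerset_apply_card (fun j => g (j + 1)), Finset.card_erase_of_mem hv]
  have h2 : 0 < W.card := Finset.card_pos.2 ⟨v, hv⟩
  rw [Nat.sub_add_cancel h2]
  refine Finset.sum_congr rfl fun j _ => ?_
  rw [nsmul_eq_mul]

theorem cc_eq (n : ℕ) : ∀ (C : Finset V) (v : V), C.card = n + 1 → v ∈ C →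
    cc C v = (-1) ^ n * (n.factorial : ℤ) := by
  classical
  induction n using Nat.strong_induction_on with
  | _ n ih =>
    intro C v hC hv
    rcases Nat.eq_zero_or_pos n with hn | hn
    · subst hn
      have h1 : E C = ∅ := E_eq_empty.2 (by omega)
      have h2 : cm ∅ v = C := by
        obtain ⟨w, rfl⟩ := Finset.card_eq_one.1 hC
        have h3 := Finset.mem_singleton.1 hv
        subst h3
        ext x
        rw [mem_cm, Finset.mem_singleton]
        constructor
        · intro h
          exact (agree (X := ∅) (Y := ∅) (D := fun x => x = v) (fun a b _ h => h)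
            (fun a b _ h => absurd h (Finset.notMem_empty _)) rfl h).2
        · rintro rfl
          exact Relation.ReflTransGen.refl
      unfold cc
      rw [h1, Finset.powerset_empty, Finset.filter_singleton, if_pos h2]
      simp
    · have h1 : S (fun _ => True) C = 0 := by
        rw [S_true, if_neg (by omega)]
      rw [S_eq_Dd _ hv, Dd_eq _ _ hv] at h1
      simp only [if_true, one_mul] at h1
      let g : ℕ → ℤ := fun m => (-1) ^ (m - 1) * ((m - 1).factorial : ℤ) *
        (if C.card - m ≤ 1 then 1 else 0)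
      have h2 : ∑ C' ∈ C.powerset with v ∈ C', cc C' v * S (fun _ => True) (C \ C') =
          (cc C v - (-1) ^ n * (n.factorial : ℤ)) + ∑ C' ∈ C.powerset with v ∈ C', g C'.card := by
        rw [← Finset.add_sum_erase (C.powerset.filter (fun C' => v ∈ C'))
            (fun C' => cc C' v * S (fun _ => True) (C \ C')) (a := C)
            (Finset.mem_filter.2 ⟨Finset.mem_powerset_self _, hv⟩),
          ← Finset.add_sum_erase (C.powerset.filter (fun C' => v ∈ C'))
            (fun C' => g C'.card) (a := C)
            (Finset.mem_filter.2 ⟨Finset.mem_powerset_self _, hv⟩)]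
        have h3 : ∀ C' ∈ (C.powerset.filter (fun C' => v ∈ C')).erase C,
            cc C' v * S (fun _ => True) (C \ C') = g C'.card := by
          intro C' hC'
          rw [Finset.mem_erase, Finset.mem_filter, Finset.mem_powerset] at hC'
          obtain ⟨h4, h5, h6⟩ := hC'
          have h7 : C'.card < C.card := Finset.card_lt_card (lt_of_le_of_ne h5 h4)
          have h8 : 0 < C'.card := Finset.card_pos.2 ⟨v, h6⟩
          rw [ih (C'.card - 1) (by omega) C' v (by omega) h6, S_true,
            Finset.card_sdiff_of_subset h5]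
        rw [Finset.sum_congr rfl h3, S_true, if_pos (by simp)]
        have h9 : g C.card = (-1) ^ n * (n.factorial : ℤ) := by
          simp only [g]
          rw [if_pos (by omega), hC, Nat.add_sub_cancel, mul_one]
        rw [h9]
        ring
      rw [h2, sum_through hv] at h1
      have h10 : ∑ j ∈ range C.card, ((C.card - 1).choose j : ℤ) * g (j + 1) =
          (-1) ^ n * (n.factorial : ℤ) + n * ((-1) ^ (n - 1) * ((n - 1).factorial : ℤ)) := by
        obtain ⟨n, rfl⟩ : ∃ k, n = k + 1 := ⟨n - 1, by omega⟩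
        rw [hC, Finset.sum_range_succ, Finset.sum_range_succ, Finset.sum_eq_zero]
        · simp only [g, Nat.add_sub_cancel]
          rw [hC, if_pos (by omega), if_pos (by omega), Nat.choose_self, Nat.choose_succ_self_right]
          push_cast
          ring
        · intro j hj
          rw [Finset.mem_range] at hj
          simp only [g]
          rw [hC, if_neg (by omega)]
          ring
      rw [h10] at h1
      have h11 : (n : ℤ) * ((n - 1).factorial : ℤ) = (n.factorial : ℤ) := by
        exact_mod_cast Nat.mul_factorial_pred (by omega)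
      have h12 : ((-1 : ℤ)) ^ n = - (-1) ^ (n - 1) := by
        obtain ⟨n, rfl⟩ : ∃ k, n = k + 1 := ⟨n - 1, by omega⟩
        rw [Nat.add_sub_cancel, pow_succ]
        ring
      have h13 : (n : ℤ) * ((-1) ^ (n - 1) * ((n - 1).factorial : ℤ)) =
          (-1) ^ (n - 1) * (n.factorial : ℤ) := by
        rw [← h11]
        ring
      rw [h13] at h1
      rw [h12] at h1 ⊢
      linarith

theorem S_e (p n : ℕ) : ∀ W : Finset V, W.card = n → S (fun m => m < p) W = e p n := by
  classical
  induction n using Nat.strong_induction_on with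
  | _ n ih =>
    intro W hW
    rcases Nat.eq_zero_or_pos n with hn | hn
    · subst hn
      rw [Finset.card_eq_zero] at hW
      subst hW
      have h1 : E (∅ : Finset V) = ∅ := E_eq_empty.2 (by simp)
      unfold S
      rw [h1, e_zero]
      simp
    · obtain ⟨v, hv⟩ : W.Nonempty := Finset.card_pos.1 (by omega)
      obtain ⟨r, rfl⟩ : ∃ k, n = k + 1 := ⟨n - 1, by omega⟩
      rw [S_eq_Dd _ hv, Dd_eq _ _ hv, e_succ]
      let g : ℕ → ℤ := fun m => (if m < p then 1 else 0) *
        ((-1) ^ (m - 1) * ((m - 1).factorial : ℤ) * e p (r + 1 - m))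
      have h4 : ∑ C ∈ W.powerset with v ∈ C, g C.card =
          ∑ j ∈ range (r + 1), (if j + 1 < p then
            (-1 : ℤ) ^ j * (r.descFactorial j : ℤ) * e p (r - j) else 0) := by
        rw [sum_through hv, hW]
        refine Finset.sum_congr rfl fun j _ => ?_
        simp only [g, Nat.add_sub_cancel, Nat.add_sub_add_right]
        rw [Nat.descFactorial_eq_factorial_mul_choose]
        split_ifs
        · push_cast
          ring
        · ring
      refine Eq.trans (Finset.sum_congr rfl fun C hC => ?_) h4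
      rw [Finset.mem_filter, Finset.mem_powerset] at hC
      have h2 : 0 < C.card := Finset.card_pos.2 ⟨v, hC.2⟩
      have h3 : (W \ C).card = r + 1 - C.card := by
        rw [Finset.card_sdiff_of_subset hC.1, hW]
      rw [cc_eq (C.card - 1) C v (by omega) hC.2, ih (r + 1 - C.card) (by omega) _ h3]
      simp only [g]
      congr

/-- the signed number of the bad configurations -/
theorem Dd_T (p r : ℕ) (hW : W.card = r + 1) (hv : v ∈ W) :
    Dd (fun m => m ≤ p) (fun m => m < p) W v = T p p r := by
  classical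
  rw [Dd_eq _ _ hv, T_trunc]
  let g : ℕ → ℤ := fun m => (if m ≤ p then 1 else 0) *
    ((-1) ^ (m - 1) * ((m - 1).factorial : ℤ) * e p (r + 1 - m))
  have h4 : ∑ C ∈ W.powerset with v ∈ C, g C.card =
      ∑ j ∈ range (r + 1), (if j < p then
        (-1 : ℤ) ^ j * (r.descFactorial j : ℤ) * e p (r - j) else 0) := by
    rw [sum_through hv, hW]
    refine Finset.sum_congr rfl fun j _ => ?_
    simp only [g, Nat.add_sub_cancel, Nat.add_sub_add_right]
    rw [Nat.descFactorial_eq_factorial_mul_choose]
    by_cases hj : j < p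
    · rw [if_pos hj, if_pos (by omega)]
      push_cast
      ring
    · rw [if_neg hj, if_neg (by omega)]
      ring
  refine Eq.trans (Finset.sum_congr rfl fun C hC => ?_) h4
  rw [Finset.mem_filter, Finset.mem_powerset] at hC
  have h2 : 0 < C.card := Finset.card_pos.2 ⟨v, hC.2⟩
  have h3 : (W \ C).card = r + 1 - C.card := by
    rw [Finset.card_sdiff_of_subset hC.1, hW]
  rw [cc_eq (C.card - 1) C v (by omega) hC.2, S_e p (r + 1 - C.card) _ h3]
  simp only [g]
  congr

end Pool.Agent.W5h81.Tp
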