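import Pool.Agent.W5h81.Tp.Model
import Pool.Agent.W5h81.Tp.Conn
import Pool.Agent.W5h81.Tp.Count

set_option autoImplicit false

/-!
MP_257582_lc. Disjoint connected sets in the invariant graphs.
-/

namespace Pool.Agent.W5h81.Tp

open Finset
open Pool.Agent.H119R2.Kp (GP PV pve_map_adj)
open Pool.Agent.TH669.KP (GR GR_adj rel_orb sgn bit)

variable (f m p : ℕ)

open Classical in
/-- the graph on the fixed points and `none`, as a set of pairs -/
noncomputable def XX (η : Jo f → Bool) : Finset (Sym2 (Option (Fin f))) :=
  univ.filter fun e => ∃ h : ¬ e.IsDiag, η ⟨e, h⟩ = true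

theorem mem_XX {η : Jo f → Bool} {u v : Option (Fin f)} :
    s(u, v) ∈ XX f η ↔ ∃ h : u ≠ v, η (jo f u v h) = true := by
  unfold XX
  rw [Finset.mem_filter]
  constructor
  · rintro ⟨_, h, h'⟩
    exact ⟨by simpa using h, h'⟩
  · rintro ⟨h, h'⟩
    exact ⟨Finset.mem_univ _, by simpa using h, h'⟩

theorem XX_symm {η : Jo f → Bool} (u v : Option (Fin f)) (h : s(u, v) ∈ XX f η) :
    s(v, u) ∈ XX f η := by rwa [Sym2.eq_swap]

variable {f m p}
variable {η : Jo f → Bool} {τ : Tx m p → Bool}

theorem adj_ff (u v : Fin f) : (Gg f m p (Sum.elim η τ)).Adj (.inl u) (.inl v) ↔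
    s(some u, some v) ∈ XX f η := by
  rw [GR_adj, mem_XX]
  constructor
  · rintro ⟨j, hj, h⟩
    by_cases h1 : u = v
    · rw [h1, orb_self] at hj
      cases hj
    · rw [orb_ff f m p h1, Option.some.injEq] at hj
      subst hj
      exact ⟨by simpa using h1, by simpa using h⟩
  · rintro ⟨h, h'⟩
    have h1 : u ≠ v := fun h2 => h (by rw [h2])
    exact ⟨_, orb_ff f m p h1, by simpa using h'⟩

theorem adj_fb (u : Fin f) (a : ZMod m × ZMod p) :
    (Gg f m p (Sum.elim η τ)).Adj (.inl u) (.inr a) ↔ s(some u, none) ∈ XX f η := by
  rw [GR_adj, mem_XX]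
  constructor
  · rintro ⟨j, hj, h⟩
    rw [orb_fb, Option.some.injEq] at hj
    subst hj
    exact ⟨by simp, by simpa using h⟩
  · rintro ⟨h, h'⟩
    exact ⟨_, orb_fb f m p u a, by simpa using h'⟩

theorem adj_in {a b : ZMod m × ZMod p} (h : a.1 = b.1) (h' : a.2 ≠ b.2) :
    (Gg f m p (Sum.elim η τ)).Adj (.inr a) (.inr b) ↔
      τ (.inr (dl p (a.2 - b.2) (sub_ne_zero.2 h'))) = true := by
  rw [GR_adj]
  constructor
  · rintro ⟨j, hj, h2⟩
    rw [orb_in f m p h h', Option.some.injEq] at hj
    subst hj
    simpa using h2
  · intro h2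
    exact ⟨_, orb_in f m p h h', by simpa using h2⟩

theorem adj_out {a b : ZMod m × ZMod p} (h : a.1 ≠ b.1) :
    (Gg f m p (Sum.elim η τ)).Adj (.inr a) (.inr b) ↔
      τ (.inl (dl m (a.1 - b.1) (sub_ne_zero.2 h))) = true := by
  rw [GR_adj]
  constructor
  · rintro ⟨j, hj, h2⟩
    rw [orb_out f m p h, Option.some.injEq] at hj
    subst hj
    simpa using h2
  · intro h2
    exact ⟨_, orb_out f m p h, by simpa using h2⟩

theorem not_adj_bb (a b : ZMod m × ZMod p) :
    ¬ (Gg f m p (Sum.elim η (fun _ => false))).Adj (.inr a) (.inr b) := by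
  by_cases h : a.1 = b.1
  · by_cases h' : a.2 = b.2
    · have : a = b := Prod.ext h h'
      subst this
      exact SimpleGraph.irrefl _
    · rw [adj_in h h']
      simp
  · rw [adj_out h]
    simp

/-- the projection -/
def pr : Vx f m p → Option (Fin f)
  | .inl u => some u
  | .inr _ => none

theorem adj_pr {x y : Vx f m p} (h : (Gg f m p (Sum.elim η τ)).Adj x y) :
    pr x = pr y ∨ s(pr x, pr y) ∈ XX f η := by
  rcases x with u | a <;> rcases y with v | b
  · exact Or.inr ((adj_ff u v).1 h)
  · exact Or.inr ((adj_fb u b).1 h)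
  · exact Or.inr (XX_symm f _ _ ((adj_fb v a).1 h.symm))
  · exact Or.inl rfl

/-- the fixed points in a set -/
def flt (Y : Finset (Option (Fin f))) : Finset (Fin f) := univ.filter fun u => some u ∈ Y

theorem mem_flt {Y : Finset (Option (Fin f))} {u : Fin f} : u ∈ flt Y ↔ some u ∈ Y := by
  unfold flt
  simp

theorem card_flt (Y : Finset (Option (Fin f))) : (flt Y).card = (Y.erase none).card := by
  have h : (flt Y).image some = Y.erase none := by
    ext x
    rw [Finset.mem_image, Finset.mem_erase]
    constructor
    · rintro ⟨u, hu, rfl⟩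
      exact ⟨by simp, mem_flt.1 hu⟩
    · rintro ⟨h1, h2⟩
      obtain ⟨u, rfl⟩ := Option.ne_none_iff_exists'.1 h1
      exact ⟨u, mem_flt.2 h2, rfl⟩
  rw [← h, Finset.card_image_of_injective _ (Option.some_injective _)]

theorem flt_insert (Y : Finset (Option (Fin f))) : flt (insert none Y) = flt Y := by
  ext u
  rw [mem_flt, mem_flt]
  simp

theorem con_inr {G : SimpleGraph (Vx f m p)} {S : Finset (ZMod m × ZMod p)}
    (h : Con (fun a b => G.Adj (.inr a) (.inr b)) S) :
    Con G.Adj ((∅ : Finset (Fin f)).disjSum S) := by
  classical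
  have h1 := h.map (B := G.Adj) (fun a => (Sum.inr a : Vx f m p)) (fun a b _ _ h => h)
  have h2 : S.image (fun a => (Sum.inr a : Vx f m p)) = (∅ : Finset (Fin f)).disjSum S := by
    ext x
    rcases x with u | a
    · simp
    · simp
  rwa [h2] at h1

theorem con_inl (Y : Finset (Option (Fin f))) (hY : none ∉ Y)
    (h : Con (fun a b => s(a, b) ∈ XX f η) Y) :
    Con (Gg f m p (Sum.elim η τ)).Adj ((flt Y).disjSum (∅ : Finset (ZMod m × ZMod p))) := by
  classical
  let φ : Option (Fin f) → Vx f m p := fun o => match o with
    | none => .inr (0, 0)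
    | some u => .inl u
  have h1 := h.map (B := (Gg f m p (Sum.elim η τ)).Adj) φ (fun a b ha hb hab => by
    rcases a with _ | a
    · exact absurd ha hY
    · rcases b with _ | b
      · exact absurd hb hY
      · exact (adj_ff a b).2 hab)
  have h2 : Y.image φ = (flt Y).disjSum (∅ : Finset (ZMod m × ZMod p)) := by
    ext x
    rw [Finset.mem_image]
    constructor
    · rintro ⟨a, ha, rfl⟩
      rcases a with _ | a
      · exact absurd ha hY
      · exact Finset.inl_mem_disjSum.2 (mem_flt.2 ha)
    · intro hx
      rcases x with u | a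
      · exact ⟨some u, mem_flt.1 (Finset.inl_mem_disjSum.1 hx), rfl⟩
      · exact absurd (Finset.inr_mem_disjSum.1 hx) (Finset.notMem_empty _)
  rwa [h2] at h1

/-- replacing `none` by a nonempty set of vertices of the blocks -/
theorem con_blow (Y : Finset (Option (Fin f))) (hY : none ∈ Y) (hY2 : 2 ≤ Y.card)
    (h : Con (fun a b => s(a, b) ∈ XX f η) Y) (B : Finset (ZMod m × ZMod p)) (hB : B.Nonempty) :
    Con (Gg f m p (Sum.elim η τ)).Adj ((flt Y).disjSum B) := by
  classical
  obtain ⟨b0, hb0⟩ := hB
  let φ : Option (Fin f) → Vx f m p := fun o => match o with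
    | none => .inr b0
    | some u => .inl u
  have hn : none ≠ (none : Option (Fin f)) → False := fun h => h rfl
  have h1 := h.map (B := (Gg f m p (Sum.elim η τ)).Adj) φ (fun a b ha hb hab => by
    rcases a with _ | a
    · rcases b with _ | b
      · obtain ⟨h2, _⟩ := (mem_XX f).1 hab
        exact absurd rfl h2
      · exact ((adj_fb b b0).2 (XX_symm f _ _ hab)).symm
    · rcases b with _ | b
      · exact (adj_fb a b0).2 hab
      · exact (adj_ff a b).2 hab)
  obtain ⟨x, hx, hnx, hxn⟩ := h.neighbour (fun a b => XX_symm f a b) hY hY2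
  refine h1.extend ?_ ?_
  · intro y hy
    obtain ⟨a, ha, rfl⟩ := Finset.mem_image.1 hy
    rcases a with _ | a
    · exact Finset.inr_mem_disjSum.2 hb0
    · exact Finset.inl_mem_disjSum.2 (mem_flt.2 ha)
  · intro y hy hy'
    rcases y with u | b
    · exfalso
      exact hy' (Finset.mem_image.2 ⟨some u, mem_flt.1 (Finset.inl_mem_disjSum.1 hy), rfl⟩)
    · obtain ⟨u, rfl⟩ := Option.ne_none_iff_exists'.1 hxn
      exact ⟨.inl u, Finset.mem_image.2 ⟨some u, hx, rfl⟩, (adj_fb u b).2 (XX_symm f _ _ hnx)⟩

/-- the blocks are partitioned into connected sets -/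
theorem good_blocks [Fact p.Prime] [NeZero m] (τ : Tx m p → Bool) (hτ : τ ≠ fun _ => false) :
    ∃ S : ZMod m → Finset (ZMod m × ZMod p), (∀ i, (S i).card = p) ∧
      (∀ i j, i ≠ j → Disjoint (S i) (S j)) ∧ ∀ (η : Jo f → Bool) (i : ZMod m),
        Con (fun a b => (Gg f m p (Sum.elim η τ)).Adj (.inr a) (.inr b)) (S i) := by
  classical
  obtain ⟨t, ht⟩ : ∃ t, τ t = true := by
    by_contra hcon
    push Not at hcon
    exact hτ (funext fun t => by simpa using hcon t)
  rcases t with t | t
  · obtain ⟨d, hd, rfl⟩ := dl_surj t
    let φ : ZMod m → ZMod p → ZMod m × ZMod p := fun i x => if x = 0 then (i + d, 0) else (i, x)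
    have hφ : ∀ i, Function.Injective (φ i) := by
      intro i x y hxy
      simp only [φ] at hxy
      split_ifs at hxy with h1 h2 h2
      · rw [h1, h2]
      · exact absurd (congrArg Prod.snd hxy).symm h2
      · exact absurd (congrArg Prod.snd hxy) h1
      · exact congrArg Prod.snd hxy
    refine ⟨fun i => univ.image (φ i), fun i => ?_, fun i j hij => ?_, fun η i => ?_⟩
    · rw [Finset.card_image_of_injective _ (hφ i), Finset.card_univ, ZMod.card]
    · rw [Finset.disjoint_left]
      intro x hx hx'
      obtain ⟨a, _, rfl⟩ := Finset.mem_image.1 hx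
      obtain ⟨b, _, hab⟩ := Finset.mem_image.1 hx'
      simp only [φ] at hab
      split_ifs at hab with h1 h2 h2
      · exact hij (add_right_cancel (congrArg Prod.fst hab)).symm
      · exact h2 (congrArg Prod.snd hab).symm
      · exact h1 (congrArg Prod.snd hab)
      · exact hij (congrArg Prod.fst hab).symm
    · refine Con.star (r := (i + d, 0)) ?_ ?_
      · exact Finset.mem_image.2 ⟨0, Finset.mem_univ _, by simp [φ]⟩
      · intro x hx hxr
        obtain ⟨a, _, rfl⟩ := Finset.mem_image.1 hx
        have ha : a ≠ 0 := by
          rintro rfl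
          apply hxr
          simp [φ]
        have h1 : φ i a = (i, a) := by simp [φ, ha]
        show (Gg f m p (Sum.elim η τ)).Adj (.inr (i + d, 0)) (.inr (φ i a))
        rw [h1, adj_out (by simpa using hd)]
        have h2 : dl m (i + d - i) (by simpa using hd) = dl m d hd := by
          rw [dl_eq_iff]
          left
          ring
        rw [h2]
        exact ht
  · obtain ⟨c, hc, rfl⟩ := dl_surj t
    have hadj : ∀ (η : Jo f → Bool) (i : ZMod m) (x : ZMod p),
        (Gg f m p (Sum.elim η τ)).Adj (.inr (i, x)) (.inr (i, x + c)) := by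
      intro η i x
      rw [adj_in (by rfl) (by simpa using hc)]
      have h2 : dl p (x - (x + c)) (by simpa using hc) = dl p c hc := by
        rw [dl_eq_iff]
        right
        ring
      rw [h2]
      exact ht
    refine ⟨fun i => univ.image fun x => (i, x), fun i => ?_, fun i j hij => ?_, fun η i => ?_⟩
    · rw [Finset.card_image_of_injective _ (fun x y h => congrArg Prod.snd h), Finset.card_univ,
        ZMod.card]
    · rw [Finset.disjoint_left]
      intro x hx hx'
      obtain ⟨a, _, rfl⟩ := Finset.mem_image.1 hx
      obtain ⟨b, _, hab⟩ := Finset.mem_image.1 hx'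
      exact hij (congrArg Prod.fst hab).symm
    · refine ⟨(i, 0), Finset.mem_image.2 ⟨0, Finset.mem_univ _, rfl⟩, ?_⟩
      have h1 : ∀ k : ℕ, Relation.ReflTransGen
          (St (fun a b => (Gg f m p (Sum.elim η τ)).Adj (.inr a) (.inr b))
            (univ.image fun x : ZMod p => (i, x))) (i, 0) (i, (k : ZMod p) * c) := by
        intro k
        induction k with
        | zero =>
          have : ((0 : ℕ) : ZMod p) * c = 0 := by simp
          rw [this]
        | succ k ih =>
          refine ih.tail ⟨?_, Finset.mem_image.2 ⟨_, Finset.mem_univ _, rfl⟩,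
            Finset.mem_image.2 ⟨_, Finset.mem_univ _, rfl⟩⟩
          have : ((k + 1 : ℕ) : ZMod p) * c = (k : ZMod p) * c + c := by
            push_cast
            ring
          rw [this]
          exact hadj η i _
      intro x hx
      obtain ⟨a, _, rfl⟩ := Finset.mem_image.1 hx
      have h2 := h1 (a * c⁻¹).val
      have h3 : (((a * c⁻¹).val : ℕ) : ZMod p) * c = a := by
        rw [ZMod.natCast_zmod_val, mul_assoc, inv_mul_cancel₀ hc, mul_one]
      rwa [h3] at h2

theorem con_cm {V : Type} [Fintype V] (X : Finset (Sym2 V)) (v : V) :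
    Con (fun a b => s(a, b) ∈ X) (cm X v) := by
  refine ⟨v, self_mem_cm X v, fun x hx => ?_⟩
  rw [mem_cm] at hx
  have h : Relation.ReflTransGen (St (fun a b => s(a, b) ∈ X) (cm X v)) v x ∧ x ∈ cm X v := by
    induction hx with
    | refl => exact ⟨Relation.ReflTransGen.refl, self_mem_cm X v⟩
    | tail h1 h2 ih =>
      have h3 := mem_cm.2 (Relation.ReflTransGen.tail h1 h2)
      exact ⟨ih.1.tail ⟨h2, ih.2, h3⟩, h3⟩
  exact h.1

theorem HT.mk' {ι : Type} {G : SimpleGraph (Vx f m p)} (Y : ι → Finset (Fin f))
    (B : ι → Finset (ZMod m × ZMod p)) (h1 : ∀ i, (Y i).card + (B i).card = p)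
    (h2 : ∀ i j, i ≠ j → Disjoint (Y i) (Y j)) (h3 : ∀ i j, i ≠ j → Disjoint (B i) (B j))
    (h4 : ∀ i, Con G.Adj ((Y i).disjSum (B i))) : HT ι p G.Adj := by
  refine ⟨fun i => (Y i).disjSum (B i), fun i => ?_, fun i j hij => ?_, h4⟩
  · rw [Finset.card_disjSum, h1]
  · rw [Finset.disjoint_left]
    intro x hx hx'
    rcases x with u | a
    · exact Finset.disjoint_left.1 (h2 i j hij) (Finset.inl_mem_disjSum.1 hx)
        (Finset.inl_mem_disjSum.1 hx')
    · exact Finset.disjoint_left.1 (h3 i j hij) (Finset.inr_mem_disjSum.1 hx)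
        (Finset.inr_mem_disjSum.1 hx')

variable (p) in
/-- the configurations without `m + 1` disjoint connected sets -/
def Bad (η : Jo f → Bool) : Prop :=
  (cm (XX f η) none).card ≤ p ∧ ∀ w, w ∉ cm (XX f η) none → (cm (XX f η) w).card < p

theorem good_inner [Fact p.Prime] [NeZero m] (hτ : τ ≠ fun _ => false)
    (Y : Finset (Option (Fin f))) (hY : none ∉ Y) (hYc : Y.card = p)
    (h : Con (fun a b => s(a, b) ∈ XX f η) Y) :
    HT (Option (ZMod m)) p (Gg f m p (Sum.elim η τ)).Adj := by
  obtain ⟨S, h1, h2, h3⟩ := good_blocks (f := f) τ hτ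
  refine HT.mk' (fun o => match o with | none => flt Y | some _ => ∅)
    (fun o => match o with | none => ∅ | some i => S i) ?_ ?_ ?_ ?_
  · rintro (_ | i)
    · simp only [card_flt, Finset.erase_eq_of_notMem hY, hYc, Finset.card_empty, add_zero]
    · simp only [h1, Finset.card_empty, zero_add]
  · rintro (_ | i) (_ | j) hij
    · exact absurd rfl hij
    · exact Finset.disjoint_empty_right _
    · exact Finset.disjoint_empty_left _
    · exact Finset.disjoint_empty_left _
  · rintro (_ | i) (_ | j) hij
    · exact absurd rfl hij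
    · exact Finset.disjoint_empty_left _
    · exact Finset.disjoint_empty_right _
    · exact h2 i j fun h => hij (by rw [h])
  · rintro (_ | i)
    · exact con_inl Y hY h
    · exact con_inr (h3 η i)

theorem good [Fact p.Prime] [NeZero m] (hτ : τ ≠ fun _ => false) (hη : ¬ Bad p η) :
    HT (Option (ZMod m)) p (Gg f m p (Sum.elim η τ)).Adj := by
  classical
  have hp1 : 1 ≤ p := (Fact.out : p.Prime).one_le
  have hsy : ∀ a b, s(a, b) ∈ XX f η → s(b, a) ∈ XX f η := fun a b => XX_symm f a b
  unfold Bad at hη
  rw [not_and_or] at hη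
  rcases hη with hη | hη
  · obtain ⟨t, ht1, ht2, ht3, ht4⟩ := (con_cm (XX f η) none).exists_subset hsy
      (self_mem_cm _ _) (p + 1) (by omega) (by omega)
    rcases ht4.split hsy ht2 (by omega) with h | ⟨X, Y, hX, hY, hXY, hU, hX', hY'⟩
    · refine good_inner hτ _ (Finset.notMem_erase _ _) ?_ h
      rw [Finset.card_erase_of_mem ht2, ht3]
      rfl
    · obtain ⟨S, h1, h2, h3⟩ := good_blocks (f := f) τ hτ
      have hXt : X ⊆ t.erase none := by
        rw [← hU]
        exact Finset.subset_union_left
      have hYt : Y ⊆ t.erase none := by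
        rw [← hU]
        exact Finset.subset_union_right
      have hnX : none ∉ X := fun h => (Finset.mem_erase.1 (hXt h)).1 rfl
      have hnY : none ∉ Y := fun h => (Finset.mem_erase.1 (hYt h)).1 rfl
      have hc : X.card + Y.card = p := by
        rw [← Finset.card_union_of_disjoint hXY, hU, Finset.card_erase_of_mem ht2, ht3]
        rfl
      have hX0 := Finset.card_pos.2 hX
      have hY0 := Finset.card_pos.2 hY
      obtain ⟨B1, hB1, hB1c⟩ := Finset.exists_subset_card_eq (s := S 0) (n := Y.card)
        (by rw [h1]; omega)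
      have hB2c : (S 0 \ B1).card = X.card := by
        rw [Finset.card_sdiff_of_subset hB1, h1, hB1c]
        omega
      have hcX : (flt X).card = X.card := by
        rw [card_flt, Finset.erase_eq_of_notMem hnX]
      have hcY : (flt Y).card = Y.card := by
        rw [card_flt, Finset.erase_eq_of_notMem hnY]
      have hdXY : Disjoint (flt X) (flt Y) := by
        rw [Finset.disjoint_left]
        intro u hu hu'
        exact Finset.disjoint_left.1 hXY (mem_flt.1 hu) (mem_flt.1 hu')
      refine HT.mk' (fun o => match o with
          | none => flt X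
          | some i => if i = 0 then flt Y else ∅)
        (fun o => match o with
          | none => B1
          | some i => if i = 0 then S 0 \ B1 else S i) ?_ ?_ ?_ ?_
      · rintro (_ | i)
        · simp only [hcX, hB1c]
          omega
        · by_cases hi : i = 0
          · simp only [hi, if_true, hcY, hB2c]
            omega
          · simp only [hi, if_false, Finset.card_empty, h1, zero_add]
      · rintro (_ | i) (_ | j) hij
        · exact absurd rfl hij
        · by_cases hj : j = 0
          · simp only [hj, if_true]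
            exact hdXY
          · simp only [hj, if_false]
            exact Finset.disjoint_empty_right _
        · by_cases hi : i = 0
          · simp only [hi, if_true]
            exact hdXY.symm
          · simp only [hi, if_false]
            exact Finset.disjoint_empty_left _
        · by_cases hi : i = 0
          · by_cases hj : j = 0
            · exact absurd (by rw [hi, hj]) hij
            · simp only [hj, if_false]
              exact Finset.disjoint_empty_right _
          · simp only [hi, if_false]
            exact Finset.disjoint_empty_left _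
      · rintro (_ | i) (_ | j) hij
        · exact absurd rfl hij
        · by_cases hj : j = 0
          · simp only [hj, if_true]
            exact Finset.disjoint_sdiff
          · simp only [hj, if_false]
            exact Finset.disjoint_of_subset_left hB1 (h2 0 j fun h => hj h.symm)
        · by_cases hi : i = 0
          · simp only [hi, if_true]
            exact Finset.disjoint_sdiff.symm
          · simp only [hi, if_false]
            exact Finset.disjoint_of_subset_right hB1 (h2 i 0 hi)
        · by_cases hi : i = 0
          · by_cases hj : j = 0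
            · exact absurd (by rw [hi, hj]) hij
            · simp only [hi, hj, if_true, if_false]
              exact Finset.disjoint_of_subset_left Finset.sdiff_subset
                (h2 0 j fun h => hj h.symm)
          · by_cases hj : j = 0
            · simp only [hi, hj, if_true, if_false]
              exact Finset.disjoint_of_subset_right Finset.sdiff_subset (h2 i 0 hi)
            · simp only [hi, hj, if_false]
              exact h2 i j fun h => hij (by rw [h])
      · rintro (_ | i)
        · have h5 := con_blow (m := m) (p := p) (τ := τ) (insert none X)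
            (Finset.mem_insert_self _ _)
            (by rw [Finset.card_insert_of_notMem hnX]; omega) hX' B1
            (Finset.card_pos.1 (by omega))
          rwa [flt_insert] at h5
        · by_cases hi : i = 0
          · simp only [hi, if_true]
            have h5 := con_blow (m := m) (p := p) (τ := τ) (insert none Y)
              (Finset.mem_insert_self _ _)
              (by rw [Finset.card_insert_of_notMem hnY]; omega) hY' (S 0 \ B1)
              (Finset.card_pos.1 (by omega))
            rwa [flt_insert] at h5
          · simp only [hi, if_false]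
            exact con_inr (h3 η i)
  · push Not at hη
    obtain ⟨w, hw, hw'⟩ := hη
    obtain ⟨t, ht1, ht2, ht3, ht4⟩ := (con_cm (XX f η) w).exists_subset hsy
      (self_mem_cm _ _) p hp1 hw'
    refine good_inner hτ t (fun h => hw ?_) ht3 ht4
    have h5 := cm_eq_of_mem (ht1 h)
    rw [h5]
    exact self_mem_cm _ _

end Pool.Agent.W5h81.Tp
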