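import Pool.Agent.W5h81.Tp.Bad

set_option autoImplicit false

/-!
MP_257582_lc. Evaluation of the relation.
-/

namespace Pool.Agent.W5h81.Tp

open Finset
open Pool.Agent.H119R2.Kp (GP PV pve_map_adj)
open Pool.Agent.TH669.KP (GR GR_adj rel_orb sgn bit bit_pos bit_neg bit_not bit_congr sum_split
  sgn_sum sum_sgn sgn_update)

variable {f m p : ℕ}

theorem sgn_XX (η : Jo f → Bool) : sgn η = (-1) ^ (XX f η).card := by
  classical
  have h1 : XX f η = (univ.filter fun j : Jo f => η j = true).image Subtype.val := by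
    ext e
    unfold XX
    rw [Finset.mem_filter, Finset.mem_image]
    constructor
    · rintro ⟨_, h, h'⟩
      exact ⟨⟨e, h⟩, Finset.mem_filter.2 ⟨Finset.mem_univ _, h'⟩, rfl⟩
    · rintro ⟨⟨e', h⟩, h', rfl⟩
      exact ⟨Finset.mem_univ _, h, (Finset.mem_filter.1 h').2⟩
  rw [h1, Finset.card_image_of_injective _ Subtype.val_injective]
  unfold sgn
  rw [Finset.prod_ite, Finset.prod_const, Finset.prod_const_one, mul_one]

theorem XX_subset (η : Jo f → Bool) : XX f η ⊆ E univ := by
  intro e he
  induction e using Sym2.ind with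
  | _ a b =>
    obtain ⟨h, _⟩ := (mem_XX f).1 he
    exact mem_E.2 ⟨Finset.mem_univ _, Finset.mem_univ _, h⟩

theorem sum_bad (p f : ℕ) : ∑ η : Jo f → Bool, sgn η * bit (Bad p η) = T p p f := by
  classical
  have hc : (univ : Finset (Option (Fin f))).card = f + 1 := by
    rw [Finset.card_univ, Fintype.card_option, Fintype.card_fin]
  rw [← Dd_T p f hc (Finset.mem_univ (none : Option (Fin f)))]
  unfold Dd
  refine Finset.sum_nbij' (fun η => XX f η) (fun X => fun e => decide (e.1 ∈ X)) ?_ ?_ ?_ ?_ ?_
  · intro η _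
    exact Finset.mem_powerset.2 (XX_subset η)
  · intro X _
    exact Finset.mem_univ _
  · intro η _
    funext j
    obtain ⟨u, v, h, rfl⟩ := jo_surj j
    have h1 : (jo f u v h).1 ∈ XX f η ↔ η (jo f u v h) = true := by
      show s(u, v) ∈ XX f η ↔ _
      rw [mem_XX]
      exact ⟨fun h => h.2, fun h' => ⟨h, h'⟩⟩
    cases h2 : η (jo f u v h)
    · rw [h2] at h1
      simpa using h1
    · rw [h2] at h1
      simpa using h1
  · intro X hX
    rw [Finset.mem_powerset] at hX
    ext e
    induction e using Sym2.ind with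
    | _ a b =>
      rw [mem_XX]
      constructor
      · rintro ⟨h, h'⟩
        exact of_decide_eq_true h'
      · intro h
        exact ⟨(mem_E.1 (hX h)).2.2, decide_eq_true h⟩
  · intro η _
    rw [sgn_XX]
    congr 1
    by_cases h : Bad p η
    · rw [bit_pos h, if_pos ⟨h.1, fun w _ hw => h.2 w hw⟩]
    · rw [bit_neg h, if_neg fun h' => h ⟨h'.1, fun w hw => h'.2 w (Finset.mem_univ _) hw⟩]

/-- the sum over the configurations without edges between vertices of blocks -/
theorem sum_zero [NeZero m] [NeZero p] (hp : 2 ≤ p) (hpm : p ≤ m + 1) (hf2 : 2 ≤ f)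
    (hf : f < (m + 1) * p) {ι : Type} [Fintype ι] (hι : Fintype.card ι = m + 1) :
    ∑ η : Jo f → Bool,
      sgn η * bit (HT ι p (Gg f m p (Sum.elim η (fun _ => false))).Adj) = 0 := by
  classical
  have hoth : ∀ a : Fin f, ∃ y, a ≠ y := by
    intro a
    by_cases h : a = ⟨0, by omega⟩
    · exact ⟨⟨1, by omega⟩, by rw [h]; simp⟩
    · exact ⟨_, h⟩
  choose oth hoth using hoth
  let A : (Jo f → Bool) → Finset (Fin f) := fun η =>
    univ.filter fun a => s(some a, none) ∈ XX f η
  have hmem : ∀ η a, a ∈ A η ↔ s(some a, none) ∈ XX f η := by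
    intro η a
    simp [A]
  let JJ : ∀ S : Finset (Fin f), S.Nonempty → Jo f := fun S h =>
    jo f (some (S.min' h)) (some (oth (S.min' h))) (by
      have := hoth (S.min' h)
      simpa using this)
  have hupd : ∀ (η : Jo f → Bool) (a b : Fin f) (h : some a ≠ some b) (v : Bool)
      (x y : Option (Fin f)), ¬ ((x = some a ∧ y = some b) ∨ (x = some b ∧ y = some a)) →
      (s(x, y) ∈ XX f (Function.update η (jo f (some a) (some b) h) v) ↔ s(x, y) ∈ XX f η) := by
    intro η a b h v x y hxy
    rw [mem_XX, mem_XX]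
    refine exists_congr fun hne => ?_
    have h1 : jo f x y hne ≠ jo f (some a) (some b) h := by
      rw [Ne, jo_eq_iff]
      exact hxy
    rw [Function.update_of_ne h1]
  have hAupd : ∀ (η : Jo f → Bool) (S : Finset (Fin f)) (hS : S.Nonempty) (v : Bool),
      A (Function.update η (JJ S hS) v) = A η := by
    intro η S hS v
    ext a
    rw [hmem, hmem]
    exact hupd η _ _ _ v _ _ (by simp)
  have hflip : ∀ (η : Jo f → Bool) (h : (A η).Nonempty) (v : Bool),
      HT ι p (Gg f m p (Sum.elim η (fun _ => false))).Adj ↔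
      HT ι p (Gg f m p (Sum.elim (Function.update η (JJ (A η) h) v) (fun _ => false))).Adj := by
    intro η h v
    have ha : s(some ((A η).min' h), none) ∈ XX f η := (hmem _ _).1 (Finset.min'_mem _ _)
    have h1 : ∀ a b : Fin f, s(some a, none) ∉ XX f η → s(some b, none) ∉ XX f η →
        (s(some a, some b) ∈ XX f (Function.update η (JJ (A η) h) v) ↔
          s(some a, some b) ∈ XX f η) := by
      intro a b ha' hb'
      refine hupd η _ _ _ v _ _ ?_
      rintro (⟨h2, _⟩ | ⟨_, h2⟩)
      · rw [h2] at ha'
        exact ha' ha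
      · rw [h2] at hb'
        exact hb' ha
    have h2 : ∀ a : Fin f, s(some a, none) ∈ XX f (Function.update η (JJ (A η) h) v) ↔
        s(some a, none) ∈ XX f η := fun a => hupd η _ _ _ v _ _ (by simp)
    constructor
    · exact zero_congr hp hι hpm (fun a => (h2 a).2) (fun a b ha' hb' => (h1 a b ha' hb').2)
    · refine zero_congr hp hι hpm (fun a => (h2 a).1) (fun a b ha' hb' => ?_)
      rw [h2] at ha' hb'
      exact (h1 a b ha' hb').1
  have hempty : ∀ η, ¬ (A η).Nonempty →
      ¬ HT ι p (Gg f m p (Sum.elim η (fun _ => false))).Adj := by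
    intro η h
    refine zero_empty hp (fun a ha => h ⟨a, (hmem _ _).2 ha⟩) (by rw [hι]; exact hf)
  refine Finset.sum_involution (fun η _ =>
    if h : (A η).Nonempty then Function.update η (JJ (A η) h) (!η (JJ (A η) h)) else η)
    ?_ ?_ ?_ ?_
  · intro η _
    by_cases h : (A η).Nonempty
    · simp only [dif_pos h]
      rw [sgn_update, ← bit_congr (hflip η h _)]
      ring
    · simp only [dif_neg h]
      rw [bit_neg (hempty η h)]
      ring
  · intro η _ hne
    by_cases h : (A η).Nonempty
    · simp only [dif_pos h]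
      intro hc
      have := congrFun hc (JJ (A η) h)
      rw [Function.update_self] at this
      cases h' : η (JJ (A η) h) <;> simp [h'] at this
    · exfalso
      apply hne
      rw [bit_neg (hempty η h)]
      ring
  · intro η _
    exact Finset.mem_univ _
  · intro η _
    by_cases h : (A η).Nonempty
    · simp only [dif_pos h, hAupd]
      funext j
      by_cases hj : j = JJ (A η) h
      · subst hj
        simp
      · simp [Function.update_of_ne hj]
    · simp only [dif_neg h]

/-- the main step -/
theorem main {n k q : ℕ} (hp : p.Prime) (hp3 : 3 ≤ p) (hpk : p ≤ k) (hkn : p * k ≤ n)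
    (hn : n + p < 2 * (p * k)) {Q : SimpleGraph (Fin n) → Prop} (hQ : GP n q Q)
    (hq : q < n.choose 2) (hQQ : ∀ G, Q G ↔ HT (Fin k) p G.Adj) : False := by
  classical
  obtain ⟨m, rfl⟩ : ∃ m, k = m + 1 := ⟨k - 1, by omega⟩
  have hmul : p * (m + 1) = m * p + p := by ring
  obtain ⟨f, hf⟩ : ∃ f, f + m * p = n := ⟨n - m * p, by omega⟩
  have : Fact p.Prime := ⟨hp⟩
  have : NeZero m := ⟨by omega⟩
  have : NeZero p := ⟨by omega⟩
  have hcard : Fintype.card (Vx f m p) = n := by
    simp only [Fintype.card_sum, Fintype.card_fin, Fintype.card_prod, ZMod.card]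
    omega
  have hfp : p ≤ f := by omega
  have hfu : f < (m + 1) * p := by
    have : (m + 1) * p = m * p + p := by ring
    omega
  have hPV : ∀ χ : Jx f m p → Bool, PV Q (Vx f m p) (Gg f m p χ) ↔
      HT (Fin (m + 1)) p (Gg f m p χ).Adj := by
    intro χ
    constructor
    · rintro ⟨e, he⟩
      rw [hQQ] at he
      refine he.map e.symm e.symm.injective fun a b hab => ?_
      rwa [pve_map_adj] at hab
    · intro h
      refine ⟨Fintype.equivFinOfCardEq hcard, ?_⟩
      rw [hQQ]
      refine h.map (Fintype.equivFinOfCardEq hcard) (Equiv.injective _) fun a b hab => ?_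
      rw [pve_map_adj]
      simpa using hab
  have hr := relation f m p hQ hf hq
  rw [sum_split] at hr
  have hne : Nonempty (Tx m p) := ⟨.inr (dl p 1 one_ne_zero)⟩
  have hne2 : Nonempty (Jo f) := ⟨jo f none (some ⟨0, by omega⟩) (by simp)⟩
  have hι : Fintype.card (Fin (m + 1)) = m + 1 := Fintype.card_fin _
  have hsg : sgn (fun _ : Tx m p => false) = 1 := by
    unfold sgn
    simp
  have h1 : ∀ η : Jo f → Bool, ∑ τ : Tx m p → Bool, sgn (Sum.elim η τ) *
      bit (PV Q (Vx f m p) (Gg f m p (Sum.elim η τ))) =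
      sgn η * bit (HT (Fin (m + 1)) p (Gg f m p (Sum.elim η (fun _ => false))).Adj) -
        sgn η + sgn η * bit (Bad p η) := by
    intro η
    have h2 : ∀ τ : Tx m p → Bool, sgn (Sum.elim η τ) *
        bit (PV Q (Vx f m p) (Gg f m p (Sum.elim η τ))) =
        sgn η * (1 - bit (Bad p η)) * sgn τ + (if τ = (fun _ => false) then
          sgn η * (bit (HT (Fin (m + 1)) p (Gg f m p (Sum.elim η (fun _ => false))).Adj) -
            (1 - bit (Bad p η))) else 0) := by
      intro τ
      rw [bit_congr (hPV _), sgn_sum]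
      simp only [Sum.elim_inl, Sum.elim_inr]
      by_cases hτ : τ = fun _ => false
      · rw [if_pos hτ, hτ, hsg]
        ring
      · rw [if_neg hτ]
        have h3 : bit (HT (Fin (m + 1)) p (Gg f m p (Sum.elim η τ)).Adj) = 1 - bit (Bad p η) := by
          by_cases hb : Bad p η
          · rw [bit_pos hb, bit_neg (bad hb hι)]
            norm_num
          · rw [bit_neg hb, bit_pos]
            · norm_num
            · refine (good hτ hb).card ?_
              rw [Fintype.card_option, ZMod.card, Fintype.card_fin]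
        rw [h3]
        ring
    rw [Finset.sum_congr rfl fun τ _ => h2 τ, Finset.sum_add_distrib, ← Finset.mul_sum, sum_sgn,
      Finset.sum_ite_eq']
    simp only [Finset.mem_univ, if_true]
    ring
  rw [Finset.sum_congr rfl fun η _ => h1 η, Finset.sum_add_distrib, Finset.sum_sub_distrib,
    sum_zero (by omega) (by omega) (by omega) hfu hι, sum_sgn, sum_bad] at hr
  have h4 := T_ne_zero p hp hp3 f hfp
  apply h4
  linarith

end Pool.Agent.W5h81.Tp
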