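import Pool.Agent.TH669.KP.Orb

set_option autoImplicit false

/-!
MP_257582_lc. Vertices: a set of `f` fixed points and `m` blocks of size `p`. The group is generated
by the translations of single blocks and the rotation of the blocks.
-/

namespace Pool.Agent.W5h81.Tp

open Finset
open Pool.Agent.H119R2.Kp (GP PV)
open Pool.Agent.TH669.KP (GR GR_adj rel_orb sgn bit)

/-- the nonzero differences up to sign -/
abbrev Td (q : ℕ) : Type := {e : Sym2 (ZMod q) // ∃ d : ZMod q, d ≠ 0 ∧ e = s(d, -d)}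

/-- the label of a difference -/
def dl (q : ℕ) (d : ZMod q) (hd : d ≠ 0) : Td q := ⟨s(d, -d), d, hd, rfl⟩

theorem dl_eq_iff {q : ℕ} {d e : ZMod q} (hd : d ≠ 0) (he : e ≠ 0) :
    dl q d hd = dl q e he ↔ d = e ∨ d = -e := by
  unfold dl
  rw [Subtype.mk.injEq, Sym2.eq_iff]
  constructor
  · rintro (h | h)
    · exact Or.inl h.1
    · exact Or.inr h.1
  · rintro (h | h)
    · subst h
      exact Or.inl ⟨rfl, rfl⟩
    · subst h
      exact Or.inr ⟨rfl, neg_neg e⟩

theorem dl_surj {q : ℕ} (t : Td q) : ∃ (d : ZMod q) (hd : d ≠ 0), t = dl q d hd := by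
  obtain ⟨e, d, hd, rfl⟩ := t
  exact ⟨d, hd, rfl⟩

variable (f m p : ℕ)

/-- the vertices -/
abbrev Vx : Type := Fin f ⊕ (ZMod m × ZMod p)

/-- pairs of fixed points, and stars of fixed points (pairs with `none`) -/
abbrev Jo : Type := {e : Sym2 (Option (Fin f)) // ¬ e.IsDiag}

/-- differences of blocks and differences in a block -/
abbrev Tx : Type := Td m ⊕ Td p

/-- the orbits -/
abbrev Jx : Type := Jo f ⊕ Tx m p

/-- a pair as an orbit -/
def jo (u v : Option (Fin f)) (h : u ≠ v) : Jo f := ⟨s(u, v), by simpa using h⟩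

variable {f} in
theorem jo_eq_iff {u v u' v' : Option (Fin f)} (h : u ≠ v) (h' : u' ≠ v') :
    jo f u v h = jo f u' v' h' ↔ (u = u' ∧ v = v') ∨ (u = v' ∧ v = u') := by
  unfold jo
  rw [Subtype.mk.injEq, Sym2.eq_iff]

variable {f} in
theorem jo_surj (j : Jo f) : ∃ (u v : Option (Fin f)) (h : u ≠ v), j = jo f u v h := by
  obtain ⟨e, he⟩ := j
  induction e using Sym2.ind with
  | _ u v => exact ⟨u, v, by simpa using he, rfl⟩

/-- the orbit of a pair -/
def orb : Vx f m p → Vx f m p → Option (Jx f m p)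
  | .inl u, .inl v => if h : u = v then none else
      some (.inl (jo f (some u) (some v) (by simpa using h)))
  | .inl u, .inr _ => some (.inl (jo f (some u) none (by simp)))
  | .inr _, .inl v => some (.inl (jo f (some v) none (by simp)))
  | .inr a, .inr b => if h : a.1 = b.1 then
      (if h' : a.2 = b.2 then none else
        some (.inr (.inr (dl p (a.2 - b.2) (sub_ne_zero.2 h')))))
      else some (.inr (.inl (dl m (a.1 - b.1) (sub_ne_zero.2 h))))

theorem orb_ff {u v : Fin f} (h : u ≠ v) : orb f m p (.inl u) (.inl v) =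
    some (.inl (jo f (some u) (some v) (by simpa using h))) := by
  simp [orb, h]

theorem orb_fb (u : Fin f) (a : ZMod m × ZMod p) : orb f m p (.inl u) (.inr a) =
    some (.inl (jo f (some u) none (by simp))) := rfl

theorem orb_bf (u : Fin f) (a : ZMod m × ZMod p) : orb f m p (.inr a) (.inl u) =
    some (.inl (jo f (some u) none (by simp))) := rfl

theorem orb_in {a b : ZMod m × ZMod p} (h : a.1 = b.1) (h' : a.2 ≠ b.2) :
    orb f m p (.inr a) (.inr b) = some (.inr (.inr (dl p (a.2 - b.2) (sub_ne_zero.2 h')))) := by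
  simp [orb, h, h']

theorem orb_out {a b : ZMod m × ZMod p} (h : a.1 ≠ b.1) :
    orb f m p (.inr a) (.inr b) = some (.inr (.inl (dl m (a.1 - b.1) (sub_ne_zero.2 h)))) := by
  simp [orb, h]

theorem orb_self (u : Vx f m p) : orb f m p u u = none := by
  rcases u with u | a <;> simp [orb]

theorem orb_symm (u v : Vx f m p) : orb f m p u v = orb f m p v u := by
  rcases u with u | a <;> rcases v with v | b
  · by_cases h : u = v
    · subst h; rfl
    · rw [orb_ff f m p h, orb_ff f m p (fun h' => h h'.symm)]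
      simp only [Option.some.injEq, Sum.inl.injEq]
      rw [jo_eq_iff]
      exact Or.inr ⟨rfl, rfl⟩
  · rfl
  · rfl
  · by_cases h : a.1 = b.1
    · by_cases h' : a.2 = b.2
      · have : a = b := Prod.ext h h'
        subst this; rfl
      · rw [orb_in f m p h h', orb_in f m p h.symm (fun h2 => h' h2.symm)]
        simp only [Option.some.injEq, Sum.inr.injEq]
        rw [dl_eq_iff]
        exact Or.inr (neg_sub _ _).symm
    · rw [orb_out f m p h, orb_out f m p (fun h2 => h h2.symm)]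
      simp only [Option.some.injEq, Sum.inr.injEq, Sum.inl.injEq]
      rw [dl_eq_iff]
      exact Or.inr (neg_sub _ _).symm

theorem orb_ne_none (u v : Vx f m p) (h : u ≠ v) : orb f m p u v ≠ none := by
  rcases u with u | a <;> rcases v with v | b
  · rw [orb_ff f m p (fun h2 => h (by rw [h2]))]
    simp
  · simp [orb]
  · simp [orb]
  · by_cases h1 : a.1 = b.1
    · rw [orb_in f m p h1 (fun h2 => h (by rw [Prod.ext h1 h2]))]
      simp
    · rw [orb_out f m p h1]
      simp

/-- translation of the block `i` -/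
def aG (i : ZMod m) : Equiv.Perm (Vx f m p) where
  toFun
    | .inl u => .inl u
    | .inr a => .inr (a.1, if a.1 = i then a.2 + 1 else a.2)
  invFun
    | .inl u => .inl u
    | .inr a => .inr (a.1, if a.1 = i then a.2 - 1 else a.2)
  left_inv := by
    rintro (u | ⟨a, x⟩)
    · rfl
    · by_cases h : a = i <;> simp [h]
  right_inv := by
    rintro (u | ⟨a, x⟩)
    · rfl
    · by_cases h : a = i <;> simp [h]

/-- rotation of the blocks -/
def cG : Equiv.Perm (Vx f m p) where
  toFun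
    | .inl u => .inl u
    | .inr a => .inr (a.1 + 1, a.2)
  invFun
    | .inl u => .inl u
    | .inr a => .inr (a.1 - 1, a.2)
  left_inv := by
    rintro (u | ⟨a, x⟩)
    · rfl
    · simp
  right_inv := by
    rintro (u | ⟨a, x⟩)
    · rfl
    · simp

theorem aG_comm (i j : ZMod m) : aG f m p i * aG f m p j = aG f m p j * aG f m p i := by
  ext u
  rcases u with u | ⟨a, x⟩
  · rfl
  · simp only [Equiv.Perm.mul_apply, aG, Equiv.coe_fn_mk]
    by_cases h : a = i
    · by_cases h' : a = j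
      · rw [← h, ← h']
      · have h2 : ¬ i = j := fun h3 => h' (h.trans h3)
        simp [h, h2]
    · by_cases h' : a = j
      · have h2 : ¬ j = i := fun h3 => h (h'.trans h3)
        simp [h', h2]
      · simp [h, h']

theorem aG_pow (i : ZMod m) (k : ℕ) (u : Vx f m p) : ((aG f m p i) ^ k) u =
    match u with
    | .inl v => .inl v
    | .inr a => .inr (a.1, if a.1 = i then a.2 + k else a.2) := by
  induction k generalizing u with
  | zero => rcases u with u | ⟨a, x⟩ <;> simp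
  | succ k ih =>
    rw [pow_succ, Equiv.Perm.mul_apply, ih]
    rcases u with u | ⟨a, x⟩
    · rfl
    · by_cases h : a = i
      · simp only [aG, Equiv.coe_fn_mk, h, if_true]
        congr 2
        push_cast
        ring
      · simp only [aG, Equiv.coe_fn_mk, h, if_false]

theorem aG_p (i : ZMod m) : aG f m p i ^ p = 1 := by
  ext u
  rw [aG_pow]
  rcases u with u | ⟨a, x⟩ <;> simp

theorem cG_conj (i : ZMod m) : (cG f m p)⁻¹ * aG f m p i * cG f m p = aG f m p (i - 1) := by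
  rw [mul_assoc, inv_mul_eq_iff_eq_mul]
  ext u
  rcases u with u | ⟨a, x⟩
  · rfl
  · simp only [Equiv.Perm.mul_apply, aG, cG, Equiv.coe_fn_mk]
    by_cases h : a = i - 1
    · simp [h]
    · have h' : ¬ a + 1 = i := fun h2 => h (by rw [← h2]; ring)
      simp [h, h']

theorem orb_aG (i : ZMod m) (u v : Vx f m p) :
    orb f m p (aG f m p i u) (aG f m p i v) = orb f m p u v := by
  rcases u with u | ⟨a, x⟩ <;> rcases v with v | ⟨b, y⟩
  · rfl
  · rfl
  · rfl
  · show orb f m p (Sum.inr (a, if a = i then x + 1 else x))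
      (Sum.inr (b, if b = i then y + 1 else y)) = _
    by_cases h : a = b
    · subst h
      by_cases h1 : a = i
      · simp only [orb, h1, if_true, add_left_inj, add_sub_add_right_eq_sub]
      · simp only [orb, h1, if_false]
    · simp only [orb, h, dite_false]

theorem orb_cG (u v : Vx f m p) :
    orb f m p (cG f m p u) (cG f m p v) = orb f m p u v := by
  rcases u with u | ⟨a, x⟩ <;> rcases v with v | ⟨b, y⟩
  · rfl
  · rfl
  · rfl
  · show orb f m p (Sum.inr (a + 1, x)) (Sum.inr (b + 1, y)) = _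
    simp only [orb, add_left_inj, add_sub_add_right_eq_sub]

theorem orb_exists [NeZero m] (j : Jx f m p) : ∃ u v, orb f m p u v = some j := by
  rcases j with j | t | t
  · obtain ⟨u, v, h, rfl⟩ := jo_surj j
    rcases u with _ | u <;> rcases v with _ | v
    · exact absurd rfl h
    · refine ⟨.inl v, .inr (0, 0), ?_⟩
      rw [orb_fb, Option.some.injEq, Sum.inl.injEq, jo_eq_iff]
      exact Or.inr ⟨rfl, rfl⟩
    · exact ⟨.inl u, .inr (0, 0), rfl⟩
    · have h' : u ≠ v := fun h2 => h (by rw [h2])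
      exact ⟨.inl u, .inl v, orb_ff f m p h'⟩
  · obtain ⟨d, hd, rfl⟩ := dl_surj t
    refine ⟨.inr (d, 0), .inr (0, 0), ?_⟩
    rw [orb_out f m p (by exact hd)]
    simp only [sub_zero]
  · obtain ⟨d, hd, rfl⟩ := dl_surj t
    refine ⟨.inr (0, d), .inr (0, 0), ?_⟩
    rw [orb_in f m p (by rfl) (by exact hd)]
    simp only [sub_zero]

/-- the group -/
abbrev Gr : Subgroup (Equiv.Perm (Vx f m p)) :=
  Subgroup.closure (insert (cG f m p) (Set.range (aG f m p)))

theorem cG_mem : cG f m p ∈ Gr f m p := Subgroup.subset_closure (Set.mem_insert _ _)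

theorem aG_mem (i : ZMod m) : aG f m p i ∈ Gr f m p :=
  Subgroup.subset_closure (Set.mem_insert_of_mem _ (Set.mem_range_self i))

theorem cG_pow (k : ℕ) (u : Vx f m p) : ((cG f m p) ^ k) u =
    match u with
    | .inl v => .inl v
    | .inr a => .inr (a.1 + k, a.2) := by
  induction k generalizing u with
  | zero => rcases u with u | ⟨a, x⟩ <;> simp
  | succ k ih =>
    rw [pow_succ, Equiv.Perm.mul_apply, ih]
    rcases u with u | ⟨a, x⟩
    · rfl
    · simp only [cG, Equiv.coe_fn_mk]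
      congr 2
      push_cast
      ring

/-- rotation by an arbitrary amount -/
theorem rot_mem [NeZero m] (d : ZMod m) : ∃ g ∈ Gr f m p,
    (∀ v : Fin f, g (.inl v) = .inl v) ∧
    ∀ a : ZMod m × ZMod p, g (.inr a) = .inr (a.1 + d, a.2) := by
  refine ⟨cG f m p ^ d.val, Subgroup.pow_mem _ (cG_mem f m p) _, fun v => ?_, fun a => ?_⟩
  · rw [cG_pow]
  · rw [cG_pow]
    simp

/-- a translation of a block -/
theorem fix_mem [NeZero p] (i : ZMod m) (c : ZMod p) : ∃ g ∈ Gr f m p,
    (∀ v : Fin f, g (.inl v) = .inl v) ∧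
    (∀ z, g (.inr (i, z)) = .inr (i, z + c)) ∧
    ∀ a : ZMod m × ZMod p, a.1 ≠ i → g (.inr a) = .inr a := by
  refine ⟨aG f m p i ^ c.val, Subgroup.pow_mem _ (aG_mem f m p i) _, fun v => ?_, fun z => ?_,
    fun a ha => ?_⟩
  · rw [aG_pow]
  · rw [aG_pow]
    simp
  · rw [aG_pow]
    simp [ha]

theorem trans_one [NeZero m] [NeZero p] (a b : ZMod m × ZMod p) : ∃ g ∈ Gr f m p,
    (∀ v : Fin f, g (.inl v) = .inl v) ∧ g (.inr a) = .inr b := by
  obtain ⟨g, hg, h1, h2⟩ := rot_mem f m p (b.1 - a.1)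
  obtain ⟨g', hg', h1', h2', _⟩ := fix_mem f m p b.1 (b.2 - a.2)
  refine ⟨g' * g, Subgroup.mul_mem _ hg' hg, fun v => ?_, ?_⟩
  · rw [Equiv.Perm.mul_apply, h1, h1']
  · rw [Equiv.Perm.mul_apply, h2]
    have h3 : (a.1 + (b.1 - a.1), a.2) = (b.1, a.2) := by
      congr 1
      ring
    rw [h3, h2']
    simp

theorem trans_two [NeZero m] [NeZero p] (a b a' b' : ZMod m × ZMod p)
    (h : a.1 - b.1 = a'.1 - b'.1) (h' : a.1 = b.1 → a.2 - b.2 = a'.2 - b'.2) :
    ∃ g ∈ Gr f m p, g (.inr a) = .inr a' ∧ g (.inr b) = .inr b' := by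
  obtain ⟨g, hg, h1, h2⟩ := rot_mem f m p (a'.1 - a.1)
  obtain ⟨g', hg', h1', h2', h3'⟩ := fix_mem f m p a'.1 (a'.2 - a.2)
  have e1 : (a.1 + (a'.1 - a.1), a.2) = (a'.1, a.2) := by
    congr 1
    ring
  have e2 : (b.1 + (a'.1 - a.1), b.2) = (b'.1, b.2) := by
    congr 1
    have : b.1 = a.1 - (a'.1 - b'.1) := by rw [← h]; ring
    rw [this]
    ring
  have hga : (g' * g) (.inr a) = .inr a' := by
    rw [Equiv.Perm.mul_apply, h2, e1, h2']
    simp
  have hgb : (g' * g) (.inr b) = g' (.inr (b'.1, b.2)) := by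
    rw [Equiv.Perm.mul_apply, h2, e2]
  by_cases hb : b'.1 = a'.1
  · have hx : a.1 = b.1 := by
      have : a.1 - b.1 = 0 := by rw [h, hb, sub_self]
      exact sub_eq_zero.1 this
    refine ⟨g' * g, Subgroup.mul_mem _ hg' hg, hga, ?_⟩
    rw [hgb, hb, h2']
    have h7 : b.2 + (a'.2 - a.2) = b'.2 := by
      have h8 := h' hx
      have h9 : b.2 = a.2 - (a'.2 - b'.2) := by rw [← h8]; ring
      rw [h9]
      ring
    rw [h7, ← hb]
  · obtain ⟨g3, hg3, _, h2'', h3''⟩ := fix_mem f m p b'.1 (b'.2 - b.2)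
    refine ⟨g3 * (g' * g), Subgroup.mul_mem _ hg3 (Subgroup.mul_mem _ hg' hg), ?_, ?_⟩
    · rw [Equiv.Perm.mul_apply, hga, h3'' _ (fun h => hb h.symm)]
    · rw [Equiv.Perm.mul_apply, hgb, h3' (b'.1, b.2) hb, h2'']
      simp

theorem orb_bb_left {j : Jx f m p} {a b : ZMod m × ZMod p}
    (h : orb f m p (.inr a) (.inr b) = some j) :
    (∃ (ha : a.1 = b.1) (hb : a.2 ≠ b.2), j = .inr (.inr (dl p (a.2 - b.2) (sub_ne_zero.2 hb)))) ∨
    (∃ (ha : a.1 ≠ b.1), j = .inr (.inl (dl m (a.1 - b.1) (sub_ne_zero.2 ha)))) := by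
  by_cases h1 : a.1 = b.1
  · by_cases h2 : a.2 = b.2
    · have : a = b := Prod.ext h1 h2
      rw [this, orb_self] at h
      cases h
    · rw [orb_in f m p h1 h2, Option.some.injEq] at h
      exact Or.inl ⟨h1, h2, h.symm⟩
  · rw [orb_out f m p h1, Option.some.injEq] at h
    exact Or.inr ⟨h1, h.symm⟩

theorem orb_trans [NeZero m] [NeZero p] (j : Jx f m p) (u v u' v' : Vx f m p)
    (h : orb f m p u v = some j) (h' : orb f m p u' v' = some j) :
    ∃ g ∈ Gr f m p, (g u = u' ∧ g v = v') ∨ (g u = v' ∧ g v = u') := by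
  have key : ∀ u v : Vx f m p, ∀ j, orb f m p u v = some j →
      (∃ (x y : Fin f) (hxy : x ≠ y), u = .inl x ∧ v = .inl y ∧
        j = .inl (jo f (some x) (some y) (by simpa using hxy))) ∨
      (∃ (x : Fin f) (a : ZMod m × ZMod p), ((u = .inl x ∧ v = .inr a) ∨ (u = .inr a ∧ v = .inl x)) ∧
        j = .inl (jo f (some x) none (by simp))) ∨
      (∃ (a b : ZMod m × ZMod p) (ha : a.1 = b.1) (hb : a.2 ≠ b.2), u = .inr a ∧ v = .inr b ∧
        j = .inr (.inr (dl p (a.2 - b.2) (sub_ne_zero.2 hb)))) ∨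
      (∃ (a b : ZMod m × ZMod p) (ha : a.1 ≠ b.1), u = .inr a ∧ v = .inr b ∧
        j = .inr (.inl (dl m (a.1 - b.1) (sub_ne_zero.2 ha)))) := by
    intro u v j h
    rcases u with u | a <;> rcases v with v | b
    · left
      by_cases h1 : u = v
      · rw [h1, orb_self] at h
        cases h
      · rw [orb_ff f m p h1, Option.some.injEq] at h
        exact ⟨u, v, h1, rfl, rfl, h.symm⟩
    · right; left
      rw [orb_fb, Option.some.injEq] at h
      exact ⟨u, b, Or.inl ⟨rfl, rfl⟩, h.symm⟩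
    · right; left
      rw [orb_bf, Option.some.injEq] at h
      exact ⟨v, a, Or.inr ⟨rfl, rfl⟩, h.symm⟩
    · right; right
      rcases orb_bb_left f m p h with ⟨ha, hb, hj⟩ | ⟨ha, hj⟩
      · exact Or.inl ⟨a, b, ha, hb, rfl, rfl, hj⟩
      · exact Or.inr ⟨a, b, ha, rfl, rfl, hj⟩
  rcases key u v j h with ⟨x, y, hxy, rfl, rfl, hj⟩ | ⟨x, a, hua, hj⟩ |
    ⟨a, b, ha, hb, rfl, rfl, hj⟩ | ⟨a, b, ha, rfl, rfl, hj⟩
  · rcases key u' v' j h' with ⟨x', y', hxy', rfl, rfl, hj'⟩ | ⟨x', a', hua', hj'⟩ |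
      ⟨a', b', ha', hb', rfl, rfl, hj'⟩ | ⟨a', b', ha', rfl, rfl, hj'⟩
    · rw [hj, Sum.inl.injEq, jo_eq_iff] at hj'
      simp only [Option.some.injEq] at hj'
      rcases hj' with ⟨rfl, rfl⟩ | ⟨rfl, rfl⟩
      · exact ⟨1, Subgroup.one_mem _, Or.inl ⟨rfl, rfl⟩⟩
      · exact ⟨1, Subgroup.one_mem _, Or.inr ⟨rfl, rfl⟩⟩
    · rw [hj, Sum.inl.injEq, jo_eq_iff] at hj'
      simp at hj'
    · rw [hj] at hj'
      simp at hj'
    · rw [hj] at hj'
      simp at hj'
  · rcases key u' v' j h' with ⟨x', y', hxy', rfl, rfl, hj'⟩ | ⟨x', a', hua', hj'⟩ |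
      ⟨a', b', ha', hb', rfl, rfl, hj'⟩ | ⟨a', b', ha', rfl, rfl, hj'⟩
    · rw [hj, Sum.inl.injEq, jo_eq_iff] at hj'
      simp at hj'
    · rw [hj, Sum.inl.injEq, jo_eq_iff] at hj'
      simp only [Option.some.injEq, reduceCtorEq, and_false, or_false, and_true] at hj'
      subst hj'
      obtain ⟨g, hg, h1, h2⟩ := trans_one f m p a a'
      refine ⟨g, hg, ?_⟩
      rcases hua with ⟨rfl, rfl⟩ | ⟨rfl, rfl⟩ <;> rcases hua' with ⟨rfl, rfl⟩ | ⟨rfl, rfl⟩
      · exact Or.inl ⟨h1 _, h2⟩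
      · exact Or.inr ⟨h1 _, h2⟩
      · exact Or.inr ⟨h2, h1 _⟩
      · exact Or.inl ⟨h2, h1 _⟩
    · rw [hj] at hj'
      simp at hj'
    · rw [hj] at hj'
      simp at hj'
  · rcases key u' v' j h' with ⟨x', y', hxy', rfl, rfl, hj'⟩ | ⟨x', a', hua', hj'⟩ |
      ⟨a', b', ha', hb', rfl, rfl, hj'⟩ | ⟨a', b', ha', rfl, rfl, hj'⟩
    · rw [hj] at hj'
      simp at hj'
    · rw [hj] at hj'
      simp at hj'
    · rw [hj, Sum.inr.injEq, Sum.inr.injEq, dl_eq_iff] at hj'
      rcases hj' with h3 | h3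
      · obtain ⟨g, hg, h4, h5⟩ := trans_two f m p a b a' b' (by rw [ha, ha', sub_self, sub_self])
          (fun _ => h3)
        exact ⟨g, hg, Or.inl ⟨h4, h5⟩⟩
      · obtain ⟨g, hg, h4, h5⟩ := trans_two f m p a b b' a' (by rw [ha, ha', sub_self, sub_self])
          (fun _ => by rw [h3, neg_sub])
        exact ⟨g, hg, Or.inr ⟨h4, h5⟩⟩
    · rw [hj] at hj'
      simp at hj'
  · rcases key u' v' j h' with ⟨x', y', hxy', rfl, rfl, hj'⟩ | ⟨x', a', hua', hj'⟩ |
      ⟨a', b', ha', hb', rfl, rfl, hj'⟩ | ⟨a', b', ha', rfl, rfl, hj'⟩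
    · rw [hj] at hj'
      simp at hj'
    · rw [hj] at hj'
      simp at hj'
    · rw [hj] at hj'
      simp at hj'
    · rw [hj, Sum.inr.injEq, Sum.inl.injEq, dl_eq_iff] at hj'
      rcases hj' with h3 | h3
      · obtain ⟨g, hg, h4, h5⟩ := trans_two f m p a b a' b' h3 (fun h => absurd h ha)
        exact ⟨g, hg, Or.inl ⟨h4, h5⟩⟩
      · obtain ⟨g, hg, h4, h5⟩ := trans_two f m p a b b' a' (by rw [h3, neg_sub])
          (fun h => absurd h ha)
        exact ⟨g, hg, Or.inr ⟨h4, h5⟩⟩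

noncomputable instance (q : ℕ) [NeZero q] : Fintype (Td q) := Fintype.ofFinite _

/-- the graph of a configuration -/
abbrev Gg (χ : Jx f m p → Bool) : SimpleGraph (Vx f m p) :=
  GR (orb f m p) (orb_symm f m p) (orb_self f m p) χ

/-- the relation -/
theorem relation [NeZero m] [Fact p.Prime] [DecidableEq (Td m)] [DecidableEq (Td p)] {n q : ℕ}
    {Q : SimpleGraph (Fin n) → Prop}
    (hQ : GP n q Q) (hV : f + m * p = n) (hq : q < n.choose 2) :
    ∑ χ : Jx f m p → Bool, sgn χ * bit (PV Q (Vx f m p) (Gg f m p χ)) = 0 := by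
  refine rel_orb hQ (V := Vx f m p) ?_ p (aG f m p) (cG f m p) (aG_comm f m p) (aG_p f m p) ?_
    (orb f m p) (orb_symm f m p) (orb_self f m p) (orb_ne_none f m p) (orb_aG f m p)
    (orb_cG f m p) (orb_exists f m p) (orb_trans f m p) hq
  · simp only [Fintype.card_sum, Fintype.card_fin, Fintype.card_prod, ZMod.card]
    omega
  · intro i
    rw [cG_conj]
    exact Subgroup.subset_closure (Set.mem_range_self _)

end Pool.Agent.W5h81.Tp
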